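import Pool.Agent.Helper10.FF.Defs

/-!
# Project FF: the properties of all zeros, for almost all `j` (block ANY)
-/

set_option autoImplicit false
set_option linter.unusedSectionVars false

namespace Pool.Agent.FFX

open Polynomial Pool.Agent.LT Pool.Agent.Helper37.UL UL Pool.Agent.OPN Pool.Agent.OPG _root_.TW Pool.Agent.TWT

variable {E C : Type} [Field E] [IsAlgClosed E] [CharZero E] [Field C] [IsAlgClosed C] [Algebra E C]
    {A : Subfield C} {T q : C} {m : ℕ} {J : Type} {U : Ultrafilter J} {S : Type} [Field S]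
    {π : (J → C) →+* S} {h : UP U π} {a : J → Fin (m + 2) → E} {Fv : J → Subfield C}
    {u : Fin (m + 2) → C}

theorem Setup.hu' (hs : Setup E A T q h a Fv u) (e : Fin (m + 2)) : u e ∈ acl (ad A {T}) := by
  have h1 : ad A {T, q} ≤ acl (ad A {T}) := by
    rw [ad_pair]
    refine ad_le le_acl ?_
    intro z hz
    rw [Set.mem_singleton_iff.1 hz]
    exact mem_acl.2 hs.hq
  exact h1 (hs.hu e)

theorem Setup.hTC (_ : Setup E A T q h a Fv u) : T ∈ acl (ad A {T}) := le_acl mem_adE

theorem Setup.hqC (hs : Setup E A T q h a Fv u) : q ∈ acl (ad A {T}) := mem_acl.2 hs.hq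

theorem Setup.transc (hs : Setup E A T q h a Fv u) :
    ∀ᶠ j in (U : Filter J), Transcendental E (gv a u j) := by
  have h1 := ev_transc hs.hA h hs.hx (T := T) hs.hu' hs.hT (i₁ := 0) hs.hu1
  exact h1

/-- the choice principle -/
theorem ev_forall (P : J → ValuationSubring C → Prop)
    (hP : ∀ W : J → ValuationSubring C, (∀ᶠ j in (U : Filter J), IsZ E (gv a u j) (W j)) →
      ∀ᶠ j in (U : Filter J), P j (W j)) :
    ∀ᶠ j in (U : Filter J), ∀ W : ValuationSubring C, IsZ E (gv a u j) W → P j W := by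
  classical
  by_contra hcon
  rw [← Ultrafilter.eventually_not] at hcon
  have h1 : ∀ j, ∃ W : ValuationSubring C,
      ¬ (∀ W : ValuationSubring C, IsZ E (gv a u j) W → P j W) → IsZ E (gv a u j) W ∧ ¬ P j W := by
    intro j
    by_cases hj : ∀ W : ValuationSubring C, IsZ E (gv a u j) W → P j W
    · exact ⟨⊤, fun h0 => absurd hj h0⟩
    · push Not at hj
      obtain ⟨W, h1, h2⟩ := hj
      exact ⟨W, fun _ => ⟨h1, h2⟩⟩
  choose W hW using h1
  have h2 := hP W (hcon.mono fun j hj => (hW j hj).1)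
  obtain ⟨j, hj1, hj2⟩ := (hcon.and h2).exists
  exact (hW j hj1).2 hj2

/-- every choice of zeros has residue maps -/
theorem exists_zero (hs : Setup E A T q h a Fv u) {W : J → ValuationSubring C}
    (hW : ∀ᶠ j in (U : Filter J), IsZ E (gv a u j) (W j)) :
    ∃ (W' : J → ValuationSubring C) (lam : ∀ j, W' j →+* E) (ι : acl (ad A {T}) →+* S),
      (∀ᶠ j in (U : Filter J), W' j = W j) ∧ Zero E A T h a u W' lam ι := by
  classical
  have hplace : ∀ j, ∃ (W' : ValuationSubring C) (t : C), Base E W' t ∧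
      (Transcendental E (gv a u j) → IsZ E (gv a u j) (W j) → W' = W j) := by
    intro j
    by_cases hj : Transcendental E (gv a u j) ∧ IsZ E (gv a u j) (W j)
    · refine ⟨W j, gv a u j, ⟨hj.2.const, ?_, ((W j).mem_nonunits_iff).2 hj.2.lt,
        alg_of_transcendental hj.1 hs.halg⟩, fun _ _ => rfl⟩
      intro h0
      apply hj.1
      rw [h0]
      exact isAlgebraic_zero
    · obtain ⟨W', hW'⟩ := exists_place hs.hT hs.halg 0
      exact ⟨W', _, hW', fun h0 h1 => absurd ⟨h0, h1⟩ hj⟩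
  choose W' t hW' ht using hplace
  choose lam hlam hlam0 using fun j => exists_lam (hW' j)
  have hE : ∀ j, ∀ e : E, algebraMap E C e ∈ W' j := fun j => (hW' j).const
  have hWW : ∀ᶠ j in (U : Filter J), W' j = W j := by
    filter_upwards [hs.transc, hW] with j h1 h2
    exact ht j h1 h2
  have hv : ∀ᶠ j in (U : Filter J), (W' j).valuation (gv a u j) < 1 := by
    filter_upwards [hWW, hW] with j h1 h2
    rw [h1]
    exact h2.lt
  have hmem : ∀ c ∈ acl (ad A {T}), ∀ᶠ j in (U : Filter J), c ∈ W' j := fun c hc =>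
    ev_mem_W hs.hA h hs.hx hs.hu0 hs.hu' hE hv hc
  obtain ⟨ι, hι⟩ := exists_iotaS h hmem (lam := lam)
  exact ⟨W', lam, ι, hWW, hE, hlam, hlam0, hv, hι⟩

theorem Zero.mem {W : J → ValuationSubring C} {lam : ∀ j, W j →+* E}
    {ι : acl (ad A {T}) →+* S} (hs : Setup E A T q h a Fv u) (hz : Zero E A T h a u W lam ι)
    {c : C} (hc : c ∈ acl (ad A {T})) : ∀ᶠ j in (U : Filter J), c ∈ W j :=
  ev_mem_W hs.hA h hs.hx hs.hu0 hs.hu' hz.hE hz.hv hc

theorem Zero.unit {W : J → ValuationSubring C} {lam : ∀ j, W j →+* E}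
    {ι : acl (ad A {T}) →+* S} (hs : Setup E A T q h a Fv u) (hz : Zero E A T h a u W lam ι)
    {c : C} (hc : c ∈ acl (ad A {T})) (hc0 : c ≠ 0) :
    ∀ᶠ j in (U : Filter J), (W j).valuation c = 1 :=
  ev_unit_W hs.hA h hs.hx hs.hu0 hs.hu' hz.hE hz.hv hc hc0

/-- the simple zeros -/
theorem Zero.simple {W : J → ValuationSubring C} {lam : ∀ j, W j →+* E}
    {ι : acl (ad A {T}) →+* S} (hs : Setup E A T q h a Fv u) (hz : Zero E A T h a u W lam ι) :
    ∀ᶠ j in (U : Filter J), ∃ τ : E, Base E (W j) (T - algebraMap E C τ) ∧ gv a u j ≠ 0 ∧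
      (W j).valuation (gv a u j) = (W j).valuation (T - algebraMap E C τ) ∧
      ∀ z ∈ ad (algebraMap E C).fieldRange {T, q}, z ≠ 0 →
        ∃ i : ℤ, (W j).valuation z = (W j).valuation (T - algebraMap E C τ) ^ i := by
  classical
  have hC0 : CharZero C := charZero_of_injective_algebraMap (algebraMap E C).injective
  have hA0 : CharZero A := inferInstance
  have hA := hs.hA
  have hx := hs.hx
  obtain ⟨φ, hφ⟩ : ∃ φ : A →+* E, ∀ r, algebraMap E C (φ r) = r := by
    let e : E ≃+* (algebraMap E C).fieldRange :=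
      RingEquiv.ofBijective (algebraMap E C).rangeRestrictField
        ⟨(algebraMap E C).rangeRestrictField.injective, fun ⟨_, e, he⟩ => ⟨e, Subtype.ext he⟩⟩
    refine ⟨(e.symm : (algebraMap E C).fieldRange →+* E).comp (Subfield.inclusion hA), fun r => ?_⟩
    have h1 : e (e.symm (Subfield.inclusion hA r)) = Subfield.inclusion hA r :=
      e.apply_symm_apply _
    exact congrArg Subtype.val h1
  let iA : Algebra A E := φ.toAlgebra
  have sA : IsScalarTower A E C := IsScalarTower.of_algebraMap_eq fun r => (hφ r).symm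
  -- the small field
  set Cs : Subfield C := acl (ad A {T}) with hCs
  have hqCs : q ∈ Cs := hs.hqC
  have hTCs : T ∈ Cs := hs.hTC
  have huC : ∀ e, u e ∈ Cs := hs.hu'
  have hACs : A ≤ Cs := le_ad.trans le_acl
  have hTA : Transcendental A T := by
    intro h0
    apply hs.hT
    exact IsAlgebraic.extendScalars (algebraMap A E).injective h0
  obtain ⟨G, hG, hG'⟩ := exists_eqn (F := A) (θ := q) hTA (alg_adjoin_iff.2 hs.hq)
  obtain ⟨Q, P, hQ0, hP0, hP1, hP⟩ := exists_common (F := A) (θ := q) hs.hu0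
    (i₁ := (0 : Fin (m + 1))) hs.hu1 (fun e => mem_adjoin_iff.2 (hs.hu e))
  have hevC : ∀ R : A[X][X], ev2 A T q R ∈ Cs := fun R => ev2_mem hACs hTCs hqCs R
  have hmem : ∀ c ∈ Cs, ∀ᶠ j in (U : Filter J), c ∈ W j := fun c hc => hz.mem hs hc
  have hunit : ∀ c ∈ Cs, c ≠ 0 → ∀ᶠ j in (U : Filter J), (W j).valuation c = 1 :=
    fun c hc hc0 => hz.unit hs hc hc0
  -- the Jacobian
  have hjac : ∀ᶠ j in (U : Filter J), ∑ e, algebraMap E C (a j e) *
      lc W lam (ev2 A T q (jac G (P e))) j ≠ 0 := by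
    refine ev_sum_ne hA h hx hs.hu0 hz.hE hz.hlam hz.hlam0 hmem hz.hι hz.hv le_rfl
      (c := fun e => ev2 A T q (jac G (P e))) (fun e => hevC _) (i₀ := 0) ?_ huC le_acl
    have hu1' : u (0 : Fin (m + 1)).succ = T := hs.hu1
    rw [hu1', hP0, hP1, jac_X_mul, map_add, map_mul, map_mul, _root_.TW.ev2_C, aeval_X, add_sub_cancel_right]
    exact mul_ne_zero hQ0 hG'
  have c9 : ∀ᶠ j in (U : Filter J), ∀ e, ev2 A T q (jac G (P e)) ∈ W j :=
    Filter.eventually_all.2 fun e => hmem _ (hevC _)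
  filter_upwards [hjac, hunit _ (hevC _) hG', hmem T hTCs, hmem q hqCs, hunit _ (hevC _) hQ0, c9,
    hs.transc, hz.hv] with j k1 k3 k4 k5 k8 k9 k10 k11
  have hE := hz.hE
  have hlam := hz.hlam
  have hlam0 := hz.hlam0
  set τ : E := lam j ⟨T, k4⟩ with hτ
  set l : E := lam j ⟨q, k5⟩ with hl
  have hTτ : (W j).valuation (T - algebraMap E C τ) < 1 :=
    lam_sub (hE j) (hlam j) (hlam0 j) ⟨T, k4⟩
  have hθl : (W j).valuation (q - algebraMap E C l) < 1 :=
    lam_sub (hE j) (hlam j) (hlam0 j) ⟨q, k5⟩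
  -- the residues of the polynomials
  have hlev : ∀ (R : A[X][X]) (hR : ev2 A T q R ∈ W j),
      lam j ⟨ev2 A T q R, hR⟩ = ev2 A τ l R := by
    intro R hR
    refine lam_eq (hE j) (hlam j) (hlam0 j) ?_
    have h1 := cong (hE j) hTτ hθl (R.map (mapRingHom (algebraMap A E)))
    rwa [ev2_map, ev2_map] at h1
  -- the simple zero
  let Pj : E[X][X] := ∑ e, Polynomial.C (Polynomial.C (a j e)) *
    (P e).map (mapRingHom (algebraMap A E))
  have hPj : ev2 E T q Pj = gv a u j * ev2 A T q Q := by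
    change ev2 E T q (∑ e, Polynomial.C (Polynomial.C (a j e)) *
      (P e).map (mapRingHom (algebraMap A E))) = _
    unfold gv
    rw [map_sum, Finset.sum_mul]
    refine Finset.sum_congr rfl fun e _ => ?_
    rw [map_mul, _root_.TW.ev2_C, aeval_C, ev2_map, hP]
    ring
  have hvPj : (W j).valuation (ev2 E T q Pj) = (W j).valuation (gv a u j) := by
    rw [hPj, map_mul, k8, mul_one]
  have hPj0 : ev2 E τ l Pj = 0 := by
    have h1 := cong (hE j) hTτ hθl Pj
    have h2 := Valuation.map_sub_lt _ (hvPj.trans_lt k11) h1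
    rw [sub_sub_cancel] at h2
    by_contra h0
    rw [val_const (hE j) h0] at h2
    exact lt_irrefl _ h2
  have hJj : ev2 E τ l (jac (G.map (mapRingHom (algebraMap A E))) Pj) ≠ 0 := by
    intro h0
    apply k1
    have h1 : jac (G.map (mapRingHom (algebraMap A E))) Pj =
        ∑ e, Polynomial.C (Polynomial.C (a j e)) *
          jac (G.map (mapRingHom (algebraMap A E))) ((P e).map (mapRingHom (algebraMap A E))) :=
      jac_lin _ _ _ _
    rw [h1, map_sum] at h0
    rw [← map_zero (algebraMap E C), ← h0, map_sum]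
    refine Finset.sum_congr rfl fun e _ => ?_
    rw [lc_of_mem (k9 e), hlev, map_mul, map_mul, _root_.TW.ev2_C, aeval_C, jac_map, ev2_map]
    rfl
  have hval : (W j).valuation (gv a u j) = (W j).valuation (T - algebraMap E C τ) := by
    have h1 := val_simple (hE j) hTτ hθl (G := G.map (mapRingHom (algebraMap A E)))
      (by rw [ev2_map]; exact hG) (by rw [derivative_map, ev2_map]; exact k3) Pj hPj0 hJj
    rw [hvPj] at h1
    exact h1
  -- the base
  have hTne : T - algebraMap E C τ ≠ 0 := by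
    intro h0
    apply hs.hT
    rw [sub_eq_zero.1 h0]
    exact isAlgebraic_algebraMap τ
  have hTtr : Transcendental E (T - algebraMap E C τ) := by
    intro h0
    apply hs.hT
    have h1 := h0.add (isAlgebraic_algebraMap (A := C) τ)
    rwa [sub_add_cancel] at h1
  have hbase : Base E (W j) (T - algebraMap E C τ) :=
    ⟨hE j, hTne, ((W j).mem_nonunits_iff).2 hTτ, alg_of_transcendental hTtr hs.halg⟩
  refine ⟨τ, hbase, ?_, hval, ?_⟩
  · intro h0
    rw [h0, map_zero] at hval
    exact (Valuation.ne_zero_iff _).2 hTne hval.symm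
  · intro z hz hz0
    have hz' : z ∈ IntermediateField.adjoin E {T, q} := by
      rw [← IntermediateField.mem_toSubfield, adjoin_sub]
      exact hz
    exact vals_k (F := E) hbase hθl (G := G.map (mapRingHom (algebraMap A E)))
      (by rw [ev2_map]; exact hG) (by rw [derivative_map, ev2_map]; exact k3) hz' hz0

theorem any : StmtANY := by
  intro E C _ _ _ _ _ _ A T q m J U S _ π h a Fv u hs
  classical
  refine ⟨?_, ?_, ?_⟩
  · intro z hz hz0
    refine ev_forall (fun _ W => W.valuation z = 1) ?_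
    intro W hW
    obtain ⟨W', lam, ι, hWW, hzr⟩ := exists_zero hs hW
    filter_upwards [hWW, hzr.unit hs hz hz0] with j h1 h2
    rw [← h1]
    exact h2
  · filter_upwards [hs.transc] with j hj
    refine ⟨?_, ?_⟩
    · intro h0
      apply hj
      rw [h0]
      exact isAlgebraic_zero
    · obtain ⟨W, hW⟩ := exists_place hj (alg_of_transcendental hj hs.halg) 0
      rw [map_zero, sub_zero] at hW
      exact ⟨W, hW.const, (W.mem_nonunits_iff).1 hW.t_mem⟩
  · refine ev_forall (fun j W => W ≠ ⊤ ∧ ∀ z ∈ ad (algebraMap E C).fieldRange {T, q}, z ≠ 0 →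
        ∃ i : ℤ, W.valuation z = W.valuation (gv a u j) ^ i) ?_
    intro W hW
    obtain ⟨W', lam, ι, hWW, hzr⟩ := exists_zero hs hW
    filter_upwards [hWW, hzr.simple hs] with j h1 h2
    obtain ⟨τ, hb, h3, h4, h5⟩ := h2
    rw [← h1]
    refine ⟨?_, ?_⟩
    · intro h0
      have h6 : (T - algebraMap E C τ)⁻¹ ∈ W' j := by rw [h0]; trivial
      rcases (ValuationSubring.mem_nonunits_iff_or _).1 hb.t_mem with h7 | h7
      · exact hb.t_ne h7
      · exact h7 h6
    · intro z hz hz0
      obtain ⟨i, hi⟩ := h5 z hz hz0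
      exact ⟨i, by rw [hi, h4]⟩

end Pool.Agent.FFX
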