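import Pool.Agent.Helper10.FF.Any

/-!
# Project FF: from the setting to the data in `S`
-/

set_option autoImplicit false
set_option linter.unusedSectionVars false

namespace Pool.Agent.FFX

open Polynomial Pool.Agent.LT Pool.Agent.Helper37.UL UL Pool.Agent.OPN Pool.Agent.OPG _root_.TW Pool.Agent.TWT

variable {E C : Type} [Field E] [IsAlgClosed E] [CharZero E] [Field C] [IsAlgClosed C] [Algebra E C]
    {A : Subfield C} {T q : C} {m : ℕ} {J : Type} {U : Ultrafilter J} {S : Type} [Field S]
    {π : (J → C) →+* S} {h : UP U π} {a : J → Fin (m + 2) → E} {Fv : J → Subfield C}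
    {u : Fin (m + 2) → C}

theorem Setup.charC (_ : Setup E A T q h a Fv u) : CharZero C :=
  charZero_of_injective_algebraMap (algebraMap E C).injective

theorem Setup.sd (hs : Setup E A T q h a Fv u) :
    SD (UP.cst π) A T q u (xg π fun j e => algebraMap E C (a j e)) (h.fsub Fv) where
  tr := by
    intro h0
    have h1 : IsAlgebraic (algebraMap E C).fieldRange T := isAlgebraic_mono hs.hA h0
    exact hs.hT (Pool.Agent.TD.isAlgebraic_range_iff.1 h1)
  hq := hs.hq
  hx := hs.hx
  hAD := by
    rintro _ ⟨z, hz, rfl⟩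
    exact h.const_mem_fsub fun j => hs.hAFv j hz
  hxD := fun e => ⟨fun j => algebraMap E C (a j e), fun j => hs.haFv j e, rfl⟩
  hwr := hs.hwr
  hu0 := hs.hu0
  hu1 := hs.hu1
  hu := hs.hu

theorem Zero.sz {W : J → ValuationSubring C} {lam : ∀ j, W j →+* E}
    {ι : acl (ad A {T}) →+* S} (hs : Setup E A T q h a Fv u) (hz : Zero E A T h a u W lam ι) :
    SZ (UP.cst π) A T u (xg π fun j e => algebraMap E C (a j e)) ι where
  const := by
    intro z hzA
    exact iota_const h hz.hE hz.hlam hz.hι (acl_range hs.hA hzA)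
  rel := by
    intro hu
    have h0 : (⟨u 0, hu 0⟩ : acl (ad A {T})) = 1 := Subtype.ext hs.hu0
    have h1 := rel_S h hs.hu0 hz.hE hz.hlam hz.hlam0 (fun c hc => hz.mem hs hc) hz.hι hz.hv hu
    rw [Fin.sum_univ_succ, h0, map_one, mul_one]
    exact h1

end Pool.Agent.FFX
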