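import Pool.Agent.Helper10.TWT.A6
import Pool.Agent.Helper13.FF.Defs

/-!
# Project FF, the field side: the setting and the statements of the blocks

The setting is the one of `TWT/A1` to `TWT/A6`: `E ⊆ C` algebraically closed, `C` algebraic over `E(T)`, `A ⊆ E` a small
field, `q` algebraic over `A(T)`, `u e ∈ A(T, q)` with `u 0 = 1`, `u 1 = T`, and `v j = ∑ a j e * u e`, where the
coefficients `a j e ∈ Fv j ⊆ E` are generic over `A` for the ultrafilter `U`.  The fields of the application are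
`k j = Fv j (T, q)`, and `C` is their algebraic closure.
-/

set_option autoImplicit false

namespace Pool.Agent.FFX

open Polynomial Pool.Agent.LT Pool.Agent.Helper37.UL UL Pool.Agent.OPN Pool.Agent.OPG _root_.TW Pool.Agent.TWT

noncomputable section

/-! ## Zeros and automorphisms -/

/-- `W` is a zero of `v` (a valuation ring over the constants `E` with `v` in the maximal ideal). -/
structure IsZ (E : Type) {C : Type} [Field E] [Field C] [Algebra E C] (v : C) (W : ValuationSubring C) : Prop where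
  const : ∀ e : E, algebraMap E C e ∈ W
  lt : W.valuation v < 1

/-- `γ` fixes the elements of `K` and stabilises `W`. -/
structure Dec {C : Type} [Field C] (K : Subfield C) (W : ValuationSubring C) (γ : C ≃+* C) : Prop where
  fix : ∀ z ∈ K, γ z = z
  stab : ∀ z, γ z ∈ W ↔ z ∈ W

/-! ## The setting -/

/-- The generic setting, as in `TWT.exists_good_place` (with `m + 2` functions, `u 0 = 1`, `u 1 = T`). -/
structure Setup (E : Type) {C : Type} [Field E] [Field C] [Algebra E C] (A : Subfield C) (T q : C) {m : ℕ}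
    {J : Type} {U : Ultrafilter J} {S : Type} [Field S] {π : (J → C) →+* S} (h : UP U π)
    (a : J → Fin (m + 2) → E) (Fv : J → Subfield C) (u : Fin (m + 2) → C) : Prop where
  hA : A ≤ (algebraMap E C).fieldRange
  hT : Transcendental E T
  halg : ∀ z : C, IsAlgebraic (IntermediateField.adjoin E {T}) z
  hq : IsAlgebraic (ad A {T}) q
  hx : AlgebraicIndependent (A.map (UP.cst π)) (xg π fun j e => algebraMap E C (a j e))
  hAFv : ∀ j, A ≤ Fv j
  hFv : ∀ j, Fv j ≤ (algebraMap E C).fieldRange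
  haFv : ∀ j e, algebraMap E C (a j e) ∈ Fv j
  hwr : ∀ z ∈ h.fsub Fv,
    IsAlgebraic (gn (A.map (UP.cst π)) (xg π fun j e => algebraMap E C (a j e))) z →
    z ∈ gn ((acl A).map (UP.cst π)) (xg π fun j e => algebraMap E C (a j e))
  hu0 : u 0 = 1
  hu1 : u 1 = T
  hu : ∀ e, u e ∈ ad A {T, q}

/-- The general element of the linear system. -/
def gv {E C J : Type} [Field E] [Field C] [Algebra E C] {m : ℕ} (a : J → Fin (m + 2) → E) (u : Fin (m + 2) → C)
    (j : J) : C := ∑ e, algebraMap E C (a j e) * u e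

/-- A choice of zeros `W j` of `v j`, with the residue maps `lam j` and the generic residue map `ι`. -/
structure Zero (E : Type) {C : Type} [Field E] [Field C] [Algebra E C] (A : Subfield C) (T : C) {m : ℕ}
    {J : Type} {U : Ultrafilter J} {S : Type} [Field S] {π : (J → C) →+* S} (_ : UP U π)
    (a : J → Fin (m + 2) → E) (u : Fin (m + 2) → C) (W : J → ValuationSubring C)
    (lam : ∀ j, W j →+* E) (ι : acl (ad A {T}) →+* S) : Prop where
  hE : ∀ j, ∀ e : E, algebraMap E C e ∈ W j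
  hlam : ∀ j, ∀ (e : E) (he : algebraMap E C e ∈ W j), lam j ⟨_, he⟩ = e
  hlam0 : ∀ j, ∀ x : W j, lam j x = 0 ↔ (W j).valuation (x : C) < 1
  hv : ∀ᶠ j in (U : Filter J), (W j).valuation (gv a u j) < 1
  hι : ∀ c : acl (ad A {T}), ι c = π (lc W lam c)

/-! ## Pure field theory: the blocks BE, GA (helper40) -/

/-- The data in `S` (for `φ = UP.cst π`, `x` the germs of the `a j e`, `D` the germs with values in `Fv j`). -/
structure SD {C S : Type} [Field C] [Field S] (φ : C →+* S) (A : Subfield C) (T q : C) {m : ℕ}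
    (u : Fin (m + 2) → C) (x : Fin (m + 2) → S) (D : Subfield S) : Prop where
  tr : Transcendental A T
  hq : IsAlgebraic (ad A {T}) q
  hx : AlgebraicIndependent (A.map φ) x
  hAD : A.map φ ≤ D
  hxD : ∀ e, x e ∈ D
  hwr : ∀ z ∈ D, IsAlgebraic (gn (A.map φ) x) z → z ∈ gn ((acl A).map φ) x
  hu0 : u 0 = 1
  hu1 : u 1 = T
  hu : ∀ e, u e ∈ ad A {T, q}

/-- A zero in `S`: an embedding of the algebraic closure of `A(T)` over the constants, with `∑ x e * ι (u e) = 0`. -/
structure SZ {C S : Type} [Field C] [Field S] (φ : C →+* S) (A : Subfield C) (T : C) {m : ℕ}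
    (u : Fin (m + 2) → C) (x : Fin (m + 2) → S) (ι : acl (ad A {T}) →+* S) : Prop where
  const : ∀ z : acl (ad A {T}), (z : C) ∈ acl A → ι z = φ z
  rel : ∀ hu : ∀ e, u e ∈ acl (ad A {T}), ∑ e, x e * ι ⟨u e, hu e⟩ = 0

/-- **Block BE** (three pairwise independent zeros). -/
def StmtBE : Prop :=
  ∀ {C S : Type} [Field C] [Field S] [CharZero C] [IsAlgClosed C] [IsAlgClosed S] (φ : C →+* S)
    {A : Subfield C} {T q : C} {m : ℕ} {u : Fin (m + 2) → C} {x : Fin (m + 2) → S} {D : Subfield S},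
    SD φ A T q u x D → (∀ z ∈ ad A {T, q}, IsAlgebraic A z → z ∈ A) →
    ∀ (hT : T ∈ acl (ad A {T})) (hq : q ∈ acl (ad A {T}))
    (ι : Fin 3 → (acl (ad A {T}) →+* S)), (∀ i, SZ φ A T u x (ι i)) →
    (∀ i i', i ≠ i' → AlgebraicIndependent (A.map φ) ![ι i ⟨T, hT⟩, ι i' ⟨T, hT⟩]) →
    ∀ y : S, (∀ i, y ∈ ad D {ι i ⟨T, hT⟩, ι i ⟨q, hq⟩}) → y ∈ D

/-- **Block GA** (all zeros are conjugate). -/
def StmtGA : Prop :=
  ∀ {C S : Type} [Field C] [Field S] [CharZero C] [IsAlgClosed C] [IsAlgClosed S] (φ : C →+* S)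
    {A : Subfield C} {T q : C} {m : ℕ} {u : Fin (m + 2) → C} {x : Fin (m + 2) → S} {D : Subfield S},
    SD φ A T q u x D → ∀ (hT : T ∈ acl (ad A {T})) (hq : q ∈ acl (ad A {T}))
    (ι ι' : acl (ad A {T}) →+* S), SZ φ A T u x ι → SZ φ A T u x ι' →
    ∀ (c : ℕ) (M : D[X]), aeval (ι ⟨T, hT⟩ + c * ι ⟨q, hq⟩) M = 0 →
      aeval (ι' ⟨T, hT⟩ + c * ι' ⟨q, hq⟩) M = 0

/-! ## Almost all `j` -/

section stmts

/-- **Block ANY**: the properties of all zeros, for almost all `j`. -/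
def StmtANY : Prop :=
  ∀ {E C : Type} [Field E] [IsAlgClosed E] [CharZero E] [Field C] [IsAlgClosed C] [Algebra E C]
    {A : Subfield C} {T q : C} {m : ℕ} {J : Type} {U : Ultrafilter J} {S : Type} [Field S]
    {π : (J → C) →+* S} (h : UP U π) {a : J → Fin (m + 2) → E} {Fv : J → Subfield C}
    {u : Fin (m + 2) → C}, Setup E A T q h a Fv u →
    (∀ z ∈ acl (ad A {T}), z ≠ 0 → ∀ᶠ j in (U : Filter J), ∀ W : ValuationSubring C, IsZ E (gv a u j) W →
      W.valuation z = 1) ∧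
    (∀ᶠ j in (U : Filter J), gv a u j ≠ 0 ∧ ∃ W : ValuationSubring C, IsZ E (gv a u j) W) ∧
    ∀ᶠ j in (U : Filter J), ∀ W : ValuationSubring C, IsZ E (gv a u j) W → W ≠ ⊤ ∧
      ∀ z ∈ ad (algebraMap E C).fieldRange {T, q}, z ≠ 0 →
        ∃ i : ℤ, W.valuation z = W.valuation (gv a u j) ^ i

/-- **Block THR** (helper94): three pairwise independent zeros. -/
def StmtTHR : Prop :=
  ∀ {E C : Type} [Field E] [IsAlgClosed E] [CharZero E] [Field C] [IsAlgClosed C] [Algebra E C]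
    {A : Subfield C} {T q : C} {m : ℕ} {J : Type} {U : Ultrafilter J} {S : Type} [Field S]
    {π : (J → C) →+* S} (h : UP U π) {a : J → Fin (m + 2) → E} {Fv : J → Subfield C}
    {u : Fin (m + 2) → C}, Setup E A T q h a Fv u →
    ∀ e : Fin 4 → Fin (m + 2), LinearIndependent E (fun i => u (e i)) →
    ∃ (W : Fin 3 → J → ValuationSubring C) (lam : ∀ i j, W i j →+* E)
      (ι : Fin 3 → (acl (ad A {T}) →+* S)), (∀ i, Zero E A T h a u (W i) (lam i) (ι i)) ∧
      ∀ (hT : T ∈ acl (ad A {T})) (i i' : Fin 3), i ≠ i' →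
        AlgebraicIndependent (A.map (UP.cst π)) ![ι i ⟨T, hT⟩, ι i' ⟨T, hT⟩]

/-- **Block H3J**: all zeros are conjugate (from GA). -/
def StmtH3J : Prop :=
  ∀ {E C : Type} [Field E] [IsAlgClosed E] [CharZero E] [Field C] [IsAlgClosed C] [Algebra E C]
    {A : Subfield C} {T q : C} {m : ℕ} {J : Type} {U : Ultrafilter J} {S : Type} [Field S]
    {π : (J → C) →+* S} (h : UP U π) {a : J → Fin (m + 2) → E} {Fv : J → Subfield C}
    {u : Fin (m + 2) → C}, Setup E A T q h a Fv u →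
    ∀ᶠ j in (U : Filter J), ∀ W W' : ValuationSubring C, IsZ E (gv a u j) W → IsZ E (gv a u j) W' →
      ∃ γ : C ≃+* C, (∀ z ∈ ad (Fv j) {T, q}, γ z = z) ∧ ∀ z, γ z ∈ W ↔ z ∈ W'

/-- **Block P2J**: the constants, for almost all `j` (from BE and THR). -/
def StmtP2J : Prop :=
  ∀ {E C : Type} [Field E] [IsAlgClosed E] [CharZero E] [Field C] [IsAlgClosed C] [Algebra E C]
    {A : Subfield C} {T q : C} {m : ℕ} {J : Type} {U : Ultrafilter J} {S : Type} [Field S]
    {π : (J → C) →+* S} (h : UP U π) {a : J → Fin (m + 2) → E} {Fv : J → Subfield C}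
    {u : Fin (m + 2) → C}, Setup E A T q h a Fv u → (∀ z ∈ ad A {T, q}, IsAlgebraic A z → z ∈ A) →
    ∀ e : Fin 4 → Fin (m + 2), LinearIndependent E (fun i => u (e i)) →
    ∀ᶠ j in (U : Filter J), ∀ c : E,
      (∀ W : ValuationSubring C, IsZ E (gv a u j) W → ∀ γ : C ≃+* C, Dec (ad (Fv j) {T, q}) W γ →
        γ (algebraMap E C c) = algebraMap E C c) → algebraMap E C c ∈ Fv j

end stmts

/-- **Block BCFK**: finiteness of the classes of functions which are unramified outside `S₀`, with representatives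
over the small field (from helper45's `bCF` / `bCFX`). -/
def StmtBCFK : Prop :=
  ∀ {E C : Type} [Field E] [IsAlgClosed E] [CharZero E] [Field C] [IsAlgClosed C] [Algebra E C]
    {A : Subfield C} {T q : C}, A ≤ (algebraMap E C).fieldRange → Transcendental E T →
    (∀ z : C, IsAlgebraic (IntermediateField.adjoin E {T}) z) → IsAlgebraic (ad A {T}) q →
    ∀ l : ℕ, l.Prime → ∀ S₀ : Finset C, (∀ z ∈ S₀, z ∈ acl (ad A {T})) →
    ∃ R : Finset C, (∀ w ∈ R, w ∈ acl (ad A {T}) ∧ w ≠ 0 ∧ w ^ l ∈ ad (acl A) {T, q}) ∧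
      ∀ r : C, r ≠ 0 → r ^ l ∈ ad (algebraMap E C).fieldRange {T, q} →
        (∀ W : ValuationSubring C, W ≠ ⊤ → (∀ e : E, algebraMap E C e ∈ W) → (∀ z ∈ S₀, z ∈ W) →
          ∀ γ : C ≃+* C, Dec (ad (algebraMap E C).fieldRange {T, q}) W γ → γ r = r) →
        ∃ w ∈ R, r / w ∈ ad (algebraMap E C).fieldRange {T, q}

/-- **Block EXT**: the setting after a finite extension of the small field: `A' ⊆ acl A` finitely generated over `A`,
`q'` with `q ∈ A'(T, q')`; `Fv' j = Fv j A'`. -/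
def StmtEXT : Prop :=
  ∀ {E C : Type} [Field E] [IsAlgClosed E] [CharZero E] [Field C] [IsAlgClosed C] [Algebra E C]
    {A : Subfield C} {T q : C} {m : ℕ} {J : Type} {U : Ultrafilter J} {S : Type} [Field S]
    {π : (J → C) →+* S} (h : UP U π) {a : J → Fin (m + 2) → E} {Fv : J → Subfield C}
    {u : Fin (m + 2) → C}, Setup E A T q h a Fv u →
    ∀ (X : Finset C), (∀ z ∈ X, z ∈ acl A) → ∀ q' ∈ acl (ad A {T}), q ∈ ad (ad A X) {T, q'} →
      Setup E (ad A X) T q' h a (fun j => ad (Fv j) X) u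

/-- **Block KUM**: the Kummer extensions, for almost all `j`. -/
def StmtKUM : Prop :=
  ∀ {E C : Type} [Field E] [IsAlgClosed E] [CharZero E] [Field C] [IsAlgClosed C] [Algebra E C]
    {A : Subfield C} {T q : C} {m : ℕ} {J : Type} {U : Ultrafilter J} {S : Type} [Field S]
    {π : (J → C) →+* S} (h : UP U π) {a : J → Fin (m + 2) → E} {Fv : J → Subfield C}
    {u : Fin (m + 2) → C}, Setup E A T q h a Fv u →
    ∀ e : Fin 4 → Fin (m + 2), LinearIndependent E (fun i => u (e i)) →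
    ∀ l : ℕ, l.Prime → ∀ S₀ B : Finset C, (∀ z ∈ S₀, z ∈ acl (ad A {T})) →
    (∀ b ∈ B, b ∈ acl (ad A {T})) →
    ∀ᶠ j in (U : Filter J), ∀ r : C,
      (∀ γ : C ≃+* C, (∀ z ∈ ad (Fv j) {T, q}, γ z = z) → (∀ b ∈ B, γ b = b) → γ (r ^ l) = r ^ l) →
      (∀ W : ValuationSubring C, W ≠ ⊤ → (∀ e : E, algebraMap E C e ∈ W) → (∀ z ∈ S₀, z ∈ W) →
        ∀ γ : C ≃+* C, Dec (ad (Fv j) {T, q}) W γ → (∀ z ∈ W, γ z - z ∈ W.nonunits) →
          (∀ b ∈ B, γ b = b) → γ r = r) →
      (∀ W : ValuationSubring C, IsZ E (gv a u j) W → ∀ γ : C ≃+* C, Dec (ad (Fv j) {T, q}) W γ →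
        (∀ b ∈ B, γ b = b) → γ r = r) →
      ∀ γ : C ≃+* C, (∀ z ∈ ad (Fv j) {T, q}, γ z = z) → (∀ b ∈ B, γ b = b) → γ r = r

end

end Pool.Agent.FFX
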