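import Pool.Agent.Helper10.FF.Defs
import Pool.Agent.Helper54.SE.EP

/-!
# Project FF, the field side: the key statement

As `SE.KeyP`, `OPG.Mod`, `SE.StmtEP`, but the property `P` depends also on the field of constants `F` (given by its image
in `k`), and four of the functions `w e` are linearly independent over the constants.
-/

set_option autoImplicit false

universe u v

namespace Pool.Agent.FFX

open Polynomial Pool.Agent.LT Pool.Agent.Helper37.UL UL Pool.Agent.OPN Pool.Agent.OPG Pool.Agent.UT Pool.Agent.SE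

/-- As `OPG.Mod`; `P` depends on the image of `k₁` in `k'`. -/
def ModF {k₀ : Type u} [Field k₀] {F k C : Type u} [Field F] [Field k] [Algebra F k] [Field C]
    [Algebra k C] (ι : k₀ →+* k) (Kb : Subfield k) {I : Type}
    (P : ∀ (k' : Type u) [Field k'], Subfield k' → (k₀ →+* k') → (I → k') → Prop) (f : I → k) : Prop :=
  ∃ (k₁ k' : Type u) (_ : Field k₁) (_ : CharZero k₁) (_ : Field k') (_ : Algebra k₁ k') (T' : k')
    (ψ : AlgebraicClosure k' →+* C) (ι' : k₀ →+* k') (f' : I → k'),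
    (∃ S : Finset k₁, Subfield.closure (S : Set k₁) = ⊤) ∧
    FiniteDimensional (IntermediateField.adjoin k₁ {T'}) k' ∧
    Kb.map (algebraMap k C) = (ψ.comp (algebraMap k' (AlgebraicClosure k'))).fieldRange ∧
    (∀ a : k₁, ∃ b : F, algebraMap k C (algebraMap F k b) =
      ψ (algebraMap k' (AlgebraicClosure k') (algebraMap k₁ k' a))) ∧
    (∀ x, algebraMap k C (ι x) = ψ (algebraMap k' (AlgebraicClosure k') (ι' x))) ∧
    (∀ i, algebraMap k C (f i) = ψ (algebraMap k' (AlgebraicClosure k') (f' i))) ∧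
    P k' (algebraMap k₁ k').fieldRange ι' f'

/-- **The key statement** (compare `SE.KeyP`); `R` is the set of the given functions (`w` is a permutation of them). -/
def KeyF (k₀ : Type u) [Field k₀] (R : Set k₀) {N : ℕ}
    (P : ∀ (k' : Type u) [Field k'], Subfield k' → (k₀ →+* k') → (Option (Fin N) → k') → Prop) : Prop :=
  ∀ {J F k C : Type u} [Field F] [CharZero F] [Field k] [Algebra F k] [Field C]
    [Algebra k C] [Algebra F C] [IsScalarTower F k C] [IsAlgClosure k C]
    (ι : k₀ →+* k) {T q : k} (_ : Transcendental F T)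
    (_ : IntermediateField.adjoin F {T, q} = ⊤)
    {κ : Subfield C} (_ : ∀ c : C, c ∈ κ ↔ IsAlgebraic F c)
    {Fs κs : Subfield C} (_ : ∀ c : C, c ∈ κs ↔ IsAlgebraic Fs c)
    {Fv : J → Subfield C} (_ : ∀ j, Fs ≤ Fv j) (_ : ∀ j, Fv j ≤ (algebraMap F C).fieldRange)
    (_ : Fs ≤ (algebraMap F C).fieldRange)
    (_ : IsAlgebraic (gen Fs ![algebraMap k C T]) (algebraMap k C q))
    (_ : ∀ a : k₀, algebraMap k C (ι a) ∈
      Subfield.closure ((Fs : Set C) ∪ {algebraMap k C T, algebraMap k C q})) {m : ℕ}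
    {w : Fin (m + 2) → k₀} (_ : Set.range w = R) (_ : w 0 ≠ 0) (_ : ι (w 1) = T * ι (w 0))
    (_ : ∃ e : Fin 4 → Fin (m + 2), LinearIndependent κ fun i => algebraMap k C (ι (w (e i))))
    {Uf : Ultrafilter J} {S : Type u} [Field S] {π : (J → C) →+* S} (h : UP Uf π)
    {vv : J → Fin N ⊕ Fin (m + 2) → F} (_ : ∀ j i, algebraMap F C (vv j i) ∈ Fv j)
    (_ : AlgebraicIndependent (Fs.map (UP.cst π)) (xg π fun j i => algebraMap F C (vv j i)))
    (_ : ∀ z ∈ h.fsub Fv,
      IsAlgebraic (gn (Fs.map (UP.cst π)) (xg π fun j i => algebraMap F C (vv j i))) z →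
      z ∈ gn (κs.map (UP.cst π)) (xg π fun j i => algebraMap F C (vv j i)))
    {Kb : J → Subfield k} (_ : ∀ a (y : k), algebraMap k C y ∈ Fs → y ∈ Kb a)
    (_ : ∀ a, T ∈ Kb a) (_ : ∀ a, q ∈ Kb a) (_ : ∀ a i, algebraMap F k (vv a i) ∈ Kb a)
    (_ : ∀ j, Fv j ≤ (Kb j).map (algebraMap k C))
    (_ : ∀ j, (Kb j).map (algebraMap k C) ≤
      Subfield.closure ((Fv j : Set C) ∪ {algebraMap k C T, algebraMap k C q}))
    (_ : ∀ j, ModF (F := F) (C := C) ι (Kb j) P (prm (ι ∘ w) (vv j))), False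

/-- **Block EPF**: the reduction to the key statement (compare `SE.StmtEP`; copy of `Helper54.SE.EP0`, `EP1`, `EP`,
with `P k' (algebraMap k₁ k').fieldRange ι' f'`).  Since `k₀` has transcendence degree one over `F₀`, the
transcendence basis complement `s : Fin n → k₀` is empty (`n = 0`), so the image of `k₁ = adjoin F (range g)` in `k` is the
one of `F`, and the four functions stay linearly independent over the algebraically closed field `FB`. -/
def StmtEPF : Prop :=
  ∀ {F₀ k₀ : Type u} [Field F₀] [CharZero F₀] [Field k₀] [Algebra F₀ k₀] {N : ℕ}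
    {P : ∀ (k' : Type u) [Field k'], Subfield k' → (k₀ →+* k') → (Option (Fin N) → k') → Prop}
    {m : ℕ} {w : Fin (m + 1) → k₀} {e : Fin 4 → Fin (m + 1)}
    (_ : KeyF k₀ (Set.range w) P)
    (_ : ∃ S : Finset k₀, Subfield.closure (S : Set k₀) = ⊤)
    (_ : ∃ t : k₀, FiniteDimensional (IntermediateField.adjoin F₀ {t}) k₀ ∧ Transcendental F₀ t)
    (_ : LinearIndependent (algebraicClosure F₀ k₀) fun i => w (e i)),
    ∃ Φ : Polynomial (MvPolynomial (Fin N ⊕ Fin (m + 1)) F₀), NoRoot Φ ∧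
      ∀ (F k : Type u) [Field F] [Field k] [Algebra F₀ F] [Algebra F k] [Algebra k₀ k]
        [Algebra F₀ k] [IsScalarTower F₀ F k] [IsScalarTower F₀ k₀ k],
        (∃ S : Finset F, Subfield.closure (S : Set F) = ⊤) →
        IntermediateField.adjoin F (Set.range (algebraMap k₀ k)) = ⊤ →
        (∀ {n : ℕ} {x : Fin n → k₀}, AlgebraicIndependent F₀ x →
          AlgebraicIndependent F (algebraMap k₀ k ∘ x)) →
        ∀ a : Fin N ⊕ Fin (m + 1) → F,
          P k (algebraMap F k).fieldRange (algebraMap k₀ k) (prm (algebraMap k₀ k ∘ w) a) →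
          ∃ x : F, Polynomial.eval₂ (aeR a) x Φ = 0

end Pool.Agent.FFX
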