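import Pool.Agent.Helper10.FF.Defs2

/-!
# Project FF, the field side: the last blocks and the property `P`
-/

set_option autoImplicit false

namespace Pool.Agent.FFX

open Polynomial Pool.Agent.LT Pool.Agent.Helper37.UL UL Pool.Agent.OPN Pool.Agent.OPG _root_.TW Pool.Agent.TWT
open Pool.Agent.FFS (HypC)

noncomputable section

/-- **Block VEX**: a valuation ring of `R ≅ acl (F' (T))` over the constants extends to `C` so that it contains all
constants `κ`. -/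
def StmtVEX : Prop :=
  ∀ {κ C : Type} [Field κ] [IsAlgClosed κ] [CharZero κ] [Field C] [IsAlgClosed C] [Algebra κ C] {T : C},
    Transcendental κ T → (∀ z : C, IsAlgebraic (IntermediateField.adjoin κ {T}) z) →
    ∀ F' : Subfield C, F' ≤ (algebraMap κ C).fieldRange →
    ∀ {R : Type} [Field R] (ψ : R →+* C), ψ.fieldRange = acl (ad F' {T}) →
    ∀ W' : ValuationSubring R, (∀ z : R, ψ z ∈ F' → z ∈ W') →
    ∃ W : ValuationSubring C, (∀ z : κ, algebraMap κ C z ∈ W) ∧ W.comap ψ = W'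

/-- **Block H3B**: all zeros are conjugate, by automorphisms fixing a given finite set (from H3J and EXT). -/
def StmtH3B : Prop :=
  ∀ {E C : Type} [Field E] [IsAlgClosed E] [CharZero E] [Field C] [IsAlgClosed C] [Algebra E C]
    {A : Subfield C} {T q : C} {m : ℕ} {J : Type} {U : Ultrafilter J} {S : Type} [Field S]
    {π : (J → C) →+* S} (h : UP U π) {a : J → Fin (m + 2) → E} {Fv : J → Subfield C}
    {u : Fin (m + 2) → C}, Setup E A T q h a Fv u →
    ∀ B : Finset C, (∀ b ∈ B, b ∈ acl (ad A {T})) →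
    ∀ᶠ j in (U : Filter J), ∀ W W' : ValuationSubring C, IsZ E (gv a u j) W → IsZ E (gv a u j) W' →
      ∃ γ : C ≃+* C, (∀ z ∈ ad (Fv j) {T, q}, γ z = z) ∧ (∀ b ∈ B, γ b = b) ∧ ∀ z, γ z ∈ W ↔ z ∈ W'

/-- **Block KUM2** (from BCFK, EXT, P2J): the elements `r` with the three properties lie in an extension of
`ad (Fv j) {T, q}` generated by a fixed finite set. -/
def StmtKUM2 : Prop :=
  ∀ {E C : Type} [Field E] [IsAlgClosed E] [CharZero E] [Field C] [IsAlgClosed C] [Algebra E C]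
    {A : Subfield C} {T q : C} {m : ℕ} {J : Type} {U : Ultrafilter J} {S : Type} [Field S]
    {π : (J → C) →+* S} (h : UP U π) {a : J → Fin (m + 2) → E} {Fv : J → Subfield C}
    {u : Fin (m + 2) → C}, Setup E A T q h a Fv u →
    ∀ e : Fin 4 → Fin (m + 2), LinearIndependent E (fun i => u (e i)) →
    ∀ l : ℕ, l.Prime → ∀ S₀ B : Finset C, (∀ z ∈ S₀, z ∈ acl (ad A {T})) →
    (∀ b ∈ B, b ∈ acl (ad A {T})) →
    ∃ B' : Finset C, (∀ b ∈ B', b ∈ acl (ad A {T})) ∧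
    ∀ᶠ j in (U : Filter J), ∀ r : C,
      (∀ γ : C ≃+* C, (∀ z ∈ ad (Fv j) {T, q}, γ z = z) → (∀ b ∈ B, γ b = b) → γ (r ^ l) = r ^ l) →
      (∀ W : ValuationSubring C, W ≠ ⊤ → (∀ e : E, algebraMap E C e ∈ W) → (∀ z ∈ S₀, z ∈ W) →
        ∀ γ : C ≃+* C, Dec (ad (Fv j) {T, q}) W γ → (∀ z ∈ W, γ z - z ∈ W.nonunits) →
          (∀ b ∈ B, γ b = b) → γ r = r) →
      (∀ W : ValuationSubring C, IsZ E (gv a u j) W → ∀ γ : C ≃+* C, Dec (ad (Fv j) {T, q}) W γ →
        (∀ b ∈ B, γ b = b) → γ r = r) →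
      ∀ γ : C ≃+* C, (∀ z ∈ ad (Fv j) {T, q}, γ z = z) → (∀ b ∈ B', γ b = b) → γ r = r

/-- The property for which the key statement is applied: the conditions fail for `c = f' none` (for some algebraic
closure `E` of `k'`). -/
def PF (k₀ : Type) [Field k₀] (S' : Finset k₀) (f : k₀[X]) (ℓ : ℕ) (k' : Type) [Field k'] (F' : Subfield k')
    (ι' : k₀ →+* k') (f' : Option (Fin 0) → k') : Prop :=
  ∃ (E : Type) (_ : Field E) (_ : Algebra k' E) (_ : IsAlgClosure k' E),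
    ¬ ∃ W₀ : ValuationSubring E, HypC F' (ι' '' (S' : Set k₀)) ((f.map ι').rootSet E) ℓ (f' none) W₀

/-- **Block KEY** (from ANY, VEX, H3B, KUM2).  `surj` (for `B ∪ B'`) and KUM2 give `kum`: `γ` trivial on `B`,
`δ` in the decomposition group of `W₀` with `δ = γ` on `B ∪ B'`, then `δ r = r` and `γ⁻¹ δ r = r`. -/
def StmtKEY : Prop :=
  ∀ (k₀ : Type) [Field k₀] [CharZero k₀] (R : Set k₀) (S' : Finset k₀), (∀ w ∈ R, w ∈ S' ∧ w⁻¹ ∈ S') →
    ∀ f : k₀[X], f ≠ 0 → ∀ ℓ : ℕ, ℓ.Prime → KeyF k₀ R (N := 0) (PF k₀ S' f ℓ)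

end

end Pool.Agent.FFX
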