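import Pool.Agent.Helper10.FF.Defs

/-!
# Project FF: the two halves of the block THR
-/

set_option autoImplicit false

namespace Pool.Agent.FFX

open Polynomial Pool.Agent.LT Pool.Agent.Helper37.UL UL Pool.Agent.OPN Pool.Agent.OPG _root_.TW Pool.Agent.TWT

noncomputable section

/-- **Block TH1**: three independent zeros in `S`. -/
def StmtTH1 : Prop :=
  ∀ {C S : Type} [Field C] [Field S] [CharZero C] [IsAlgClosed C] [IsAlgClosed S] (φ : C →+* S)
    {A : Subfield C} {T : C} {m : ℕ} {u : Fin (m + 2) → C} {x : Fin (m + 2) → S},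
    Transcendental A T → (∀ e, u e ∈ acl (ad A {T})) → u 0 = 1 → u 1 = T →
    AlgebraicIndependent (A.map φ) x →
    ∀ e : Fin 4 → Fin (m + 2), LinearIndependent (acl A) (fun i => u (e i)) →
    ∃ ι : Fin 3 → (acl (ad A {T}) →+* S), (∀ i, SZ φ A T u x (ι i)) ∧
      ∀ (hT : T ∈ acl (ad A {T})) (i i' : Fin 3), i ≠ i' →
        AlgebraicIndependent (A.map φ) ![ι i ⟨T, hT⟩, ι i' ⟨T, hT⟩]

/-- **Block TH2**: the zeros in `S` come from zeros for almost all `j` (with the same value of `T`). -/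
def StmtTH2 : Prop :=
  ∀ {E C : Type} [Field E] [IsAlgClosed E] [CharZero E] [Field C] [IsAlgClosed C] [Algebra E C]
    {A : Subfield C} {T q : C} {m : ℕ} {J : Type} {U : Ultrafilter J} {S : Type} [Field S]
    {π : (J → C) →+* S} (h : UP U π) {a : J → Fin (m + 2) → E} {Fv : J → Subfield C}
    {u : Fin (m + 2) → C}, Setup E A T q h a Fv u →
    ∀ ι' : acl (ad A {T}) →+* S, SZ (UP.cst π) A T u (xg π fun j e => algebraMap E C (a j e)) ι' →
    ∃ (W : J → ValuationSubring C) (lam : ∀ j, W j →+* E) (ι : acl (ad A {T}) →+* S),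
      Zero E A T h a u W lam ι ∧ ∀ hT : T ∈ acl (ad A {T}), ι ⟨T, hT⟩ = ι' ⟨T, hT⟩

end

end Pool.Agent.FFX
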