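import Pool.Agent.Helper10.FF.H3
import Pool.Agent.Helper10.FF.Defs3
import Pool.Agent.Helper13.LG.G10

/-!
# Project FF: enlargement of the small field; block H3B
-/

set_option autoImplicit false
set_option linter.unusedSectionVars false

namespace Pool.Agent.FFX

open Polynomial Pool.Agent.LT Pool.Agent.SC Pool.Agent.Helper37.UL UL Pool.Agent.OPN Pool.Agent.OPG _root_.TW Pool.Agent.TWT

section enl

variable {C : Type} [Field C] [CharZero C]

/-- finite sets of algebraic elements have a primitive element -/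
theorem exists_prim1 {K : Subfield C} (B : Finset C) (hB : ∀ b ∈ B, IsAlgebraic K b) :
    ∃ q' : C, IsAlgebraic K q' ∧ ad K {q'} = ad K (B : Set C) := by
  obtain ⟨β, hβ, hβ1, hβ2⟩ := exists_prim (B := K) (fun x : B => (x : C)) fun x => hB _ x.2
  have h1 : Set.range (fun x : B => (x : C)) = (B : Set C) := Subtype.range_coe
  rw [h1] at hβ1 hβ2
  refine ⟨β, hβ, le_antisymm (ad_le le_ad ?_) ?_⟩
  · intro z hz
    rw [Set.mem_singleton_iff.1 hz]
    exact hβ1
  · intro y hy
    obtain ⟨P, rfl⟩ := hβ2 y hy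
    rw [aeval_eq_sum_range]
    refine Subfield.sum_mem _ fun i _ => ?_
    rw [Algebra.smul_def]
    exact Subfield.mul_mem _ (le_ad (P.coeff i).2) (Subfield.pow_mem _ mem_adE _)

/-- the constants in a finite extension of `A(T)` are generated by finitely many elements -/
theorem exists_fin_const {A : Subfield C} {T q : C} (hT : Transcendental A T) (hq : IsAlgebraic (ad A {T}) q) :
    ∃ X : Finset C, (∀ z ∈ X, z ∈ acl A ∧ z ∈ ad A {T, q}) ∧
      ∀ z ∈ ad A {T, q}, IsAlgebraic A z → z ∈ ad A (X : Set C) := by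
  classical
  set Cs : Subfield C := ad A {T, q} with hCs
  have hAC : A ≤ Cs := le_ad
  have hTm : T ∈ Cs := mem_ad (Or.inl rfl)
  have hqm : q ∈ Cs := mem_ad (Or.inr rfl)
  let _ : Algebra A Cs := (Subfield.inclusion hAC).toAlgebra
  have halgm : ∀ z : A, ((algebraMap A Cs z : Cs) : C) = z := fun _ => rfl
  have hst : IsScalarTower A Cs C := IsScalarTower.of_algebraMap_eq fun _ => rfl
  let T' : Cs := ⟨T, hTm⟩
  let q' : Cs := ⟨q, hqm⟩
  have hT' : Transcendental A T' := by
    intro h0
    exact hT (h0.algebraMap (A := C))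
  have hx : AlgebraicIndependent A (fun _ : Unit => T') := algebraicIndependent_unique_type_iff.2 hT'
  have hx' := hx.algebraicClosure
  have hess : Algebra.EssFiniteType A Cs := by
    rw [← IntermediateField.fg_top_iff]
    refine ⟨{T', q'}, ?_⟩
    rw [eq_top_iff]
    intro z _
    have h1 : Cs ≤ (IntermediateField.adjoin A ((({T', q'} : Finset Cs) : Set Cs))).toSubfield.map Cs.subtype := by
      refine ad_le ?_ ?_
      · intro y hy
        exact ⟨algebraMap A Cs ⟨y, hy⟩, (IntermediateField.adjoin A _).algebraMap_mem _, rfl⟩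
      · rintro y (hy | hy)
        · rw [hy]
          exact ⟨T', IntermediateField.subset_adjoin A _ (by simp), rfl⟩
        · rw [Set.mem_singleton_iff.1 hy]
          exact ⟨q', IntermediateField.subset_adjoin A _ (by simp), rfl⟩
    obtain ⟨y, hy, hyz⟩ := h1 z.2
    have h2 : y = z := Subtype.ext hyz
    rw [← h2]
    exact hy
  have hfin : FiniteDimensional (IntermediateField.adjoin A (Set.range fun _ : Unit => T')) Cs := by
    have h0 : (Set.range fun _ : Unit => T') = {T'} := by
      ext z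
      constructor
      · rintro ⟨_, rfl⟩
        rfl
      · intro hz
        exact ⟨(), (Set.mem_singleton_iff.1 hz).symm⟩
    rw [h0]
    have h1 : Algebra.IsAlgebraic (IntermediateField.adjoin A {T'}) Cs := by
      refine ⟨fun z => ?_⟩
      refine alg_sub (A := A) (K := A) (Cs := Cs) le_rfl hTm halgm ?_
      have h2 : Cs ≤ acl (ad A {T}) := by
        rw [hCs, ad_pair]
        refine ad_le le_acl ?_
        intro y hy
        rw [Set.mem_singleton_iff.1 hy]
        exact mem_acl.2 hq
      exact mem_acl.1 (h2 z.2)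
    have h3 : Algebra.EssFiniteType (IntermediateField.adjoin A {T'}) Cs :=
      Algebra.EssFiniteType.of_comp A _ Cs
    exact Algebra.finite_of_essFiniteType_of_isAlgebraic
  have hfinA : FiniteDimensional A (algebraicClosure A Cs) :=
    Pool.Agent.LT.finite_of_finite_adjoin _ hx'
  let b := Module.finBasis A (algebraicClosure A Cs)
  refine ⟨Finset.univ.image fun i => ((b i : Cs) : C), ?_, ?_⟩
  · intro z hz
    obtain ⟨i, -, rfl⟩ := Finset.mem_image.1 hz
    refine ⟨mem_acl.2 ?_, (b i : Cs).2⟩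
    have h1 : IsAlgebraic A ((b i : Cs)) := mem_algebraicClosure_iff.1 (b i).2
    exact h1.algebraMap (A := C)
  · intro z hz hza
    have h1 : IsAlgebraic A (⟨z, hz⟩ : Cs) := by
      refine (isAlgebraic_algebraMap_iff (A := C) ?_).1 hza
      exact Subtype.val_injective
    have h2 : (⟨⟨z, hz⟩, mem_algebraicClosure_iff.2 h1⟩ : algebraicClosure A Cs) ∈
        (⊤ : Submodule A (algebraicClosure A Cs)) := trivial
    rw [← b.span_eq] at h2
    have h3 : ∀ y ∈ Submodule.span A (Set.range b), ((y : Cs) : C) ∈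
        ad A ((Finset.univ.image fun i => ((b i : Cs) : C) : Finset C) : Set C) := by
      intro y hy
      induction hy using Submodule.span_induction with
      | mem y hy =>
        obtain ⟨i, rfl⟩ := hy
        exact mem_ad (by simp)
      | zero => exact Subfield.zero_mem _
      | add x y _ _ hx hy => exact Subfield.add_mem _ hx hy
      | smul c y _ hy =>
        change ((c • (y : Cs) : Cs) : C) ∈ _
        rw [Algebra.smul_def]
        exact Subfield.mul_mem _ (le_ad c.2) hy
    exact h3 _ h2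

/-- **The enlargement.** -/
theorem exists_enl {A : Subfield C} {T : C} (hT : Transcendental A T) (B : Finset C)
    (hB : ∀ b ∈ B, b ∈ acl (ad A {T})) :
    ∃ (X : Finset C) (q' : C), (∀ z ∈ X, z ∈ acl A) ∧ q' ∈ acl (ad A {T}) ∧
      (∀ b ∈ B, b ∈ ad A {T, q'}) ∧ (∀ b ∈ B, b ∈ ad (ad A (X : Set C)) {T, q'}) ∧
      ∀ z ∈ ad (ad A (X : Set C)) {T, q'}, IsAlgebraic (ad A (X : Set C)) z → z ∈ ad A (X : Set C) := by
  obtain ⟨q', hq', h1⟩ := exists_prim1 (K := ad A {T}) B fun b hb => mem_acl.1 (hB b hb)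
  obtain ⟨X, hX, hX'⟩ := exists_fin_const hT hq'
  have h2 : ∀ b ∈ B, b ∈ ad A {T, q'} := by
    intro b hb
    rw [ad_pair, h1]
    exact mem_ad hb
  have h3 : ad (ad A (X : Set C)) {T, q'} ≤ ad A {T, q'} := by
    refine ad_le (ad_le le_ad fun z hz => (hX z hz).2) fun z hz => mem_ad hz
  refine ⟨X, q', fun z hz => (hX z hz).1, mem_acl.2 hq', h2, fun b hb => ad_mono le_ad le_rfl (h2 b hb), ?_⟩
  intro z hz hza
  have h4 : ad A (X : Set C) ≤ acl A := ad_le le_acl fun z hz => (hX z hz).1
  exact hX' z (h3 hz) (mem_acl.1 (acl_closed (isAlgebraic_mono h4 hza)))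

end enl

/-- **Block H3B.** -/
theorem h3b (hGA : StmtGA) (hEXT : StmtEXT) : StmtH3B := by
  intro E C _ _ _ _ _ _ A T q m J U S _ π h a Fv u hs B hB
  classical
  have hC0 := hs.charC
  have hqC : q ∈ acl (ad A {T}) := mem_acl.2 hs.hq
  obtain ⟨X, q', hX, hq', -, h1, -⟩ := exists_enl hs.sd.tr (insert q B) (by
    intro b hb
    rcases Finset.mem_insert.1 hb with rfl | hb
    · exact hqC
    · exact hB b hb)
  have hs' := hEXT h hs X hX q' hq' (h1 q (Finset.mem_insert_self _ _))
  filter_upwards [h3j hGA h hs'] with j hj W W' hW hW'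
  obtain ⟨γ, hγ, hγW⟩ := hj W W' hW hW'
  have h2 : ad (ad A (X : Set C)) {T, q'} ≤ ad (ad (Fv j) (X : Set C)) {T, q'} :=
    ad_mono (ad_mono (hs.hAFv j) le_rfl) le_rfl
  refine ⟨γ, fun z hz => hγ z ?_, fun b hb => hγ b (h2 (h1 b (Finset.mem_insert_of_mem hb))), hγW⟩
  refine (ad_le (le_ad.trans le_ad) ?_ : ad (Fv j) {T, q} ≤ _) hz
  rintro y (hy | hy)
  · rw [hy]
    exact mem_ad (Or.inl rfl)
  · rw [Set.mem_singleton_iff.1 hy]
    exact h2 (h1 q (Finset.mem_insert_self _ _))

end Pool.Agent.FFX
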