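import Pool.Agent.Helper10.FF.Kd

/-!
# Project FF, block KUM2: the Kummer extensions
-/

set_option autoImplicit false
set_option linter.unusedSectionVars false

namespace Pool.Agent.FFX

open Polynomial Pool.Agent.LT Pool.Agent.SC Pool.Agent.Helper37.UL UL Pool.Agent.OPN Pool.Agent.OPG _root_.TW Pool.Agent.TWT

/-- residues of nontrivial valuation rings over the constants -/
theorem ex_res {E C : Type} [Field E] [IsAlgClosed E] [CharZero E] [Field C] [IsAlgClosed C] [Algebra E C]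
    {T : C} (halg : ∀ z : C, IsAlgebraic (IntermediateField.adjoin E {T}) z) {W : ValuationSubring C}
    (hW : W ≠ ⊤) (hE : ∀ e : E, algebraMap E C e ∈ W) {z : C} (hz : z ∈ W) :
    ∃ e : E, z - algebraMap E C e ∈ W.nonunits := by
  obtain ⟨t, ht⟩ : ∃ t : C, t ∉ W := by
    by_contra hcon
    push Not at hcon
    exact hW (eq_top_iff.2 fun z _ => hcon z)
  have ht0 : t ≠ 0 := fun h0 => ht (h0 ▸ W.zero_mem)
  have htn : t⁻¹ ∈ W.nonunits := by
    rw [ValuationSubring.mem_nonunits_iff]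
    have h1 : 1 < W.valuation t := by
      rw [← not_le, ValuationSubring.valuation_le_one_iff]
      exact ht
    rw [map_inv₀]
    exact (inv_lt_one₀ (zero_lt_one.trans h1)).2 h1
  have htt : Transcendental E t⁻¹ := by
    intro h0
    obtain ⟨e, he⟩ := minpoly.mem_range_of_degree_eq_one E t⁻¹
      (IsAlgClosed.degree_eq_one_of_irreducible E (minpoly.irreducible h0.isIntegral))
    apply ht
    have h1 : t = algebraMap E C e⁻¹ := by
      rw [map_inv₀, he, inv_inv]
    rw [h1]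
    exact hE _
  have hB : Base E W t⁻¹ := ⟨hE, inv_ne_zero ht0, htn, alg_of_transcendental htt halg⟩
  exact hB.exists_residue hz

/-- automorphisms fixing `E` which stabilise `W` act trivially on the residue field -/
theorem inert_of {E C : Type} [Field E] [IsAlgClosed E] [CharZero E] [Field C] [IsAlgClosed C] [Algebra E C]
    {T : C} (halg : ∀ z : C, IsAlgebraic (IntermediateField.adjoin E {T}) z) {W : ValuationSubring C}
    (hW : W ≠ ⊤) (hE : ∀ e : E, algebraMap E C e ∈ W) {γ : C ≃+* C} (hγE : ∀ e : E, γ (algebraMap E C e) =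
      algebraMap E C e) (hγ : ∀ z, γ z ∈ W ↔ z ∈ W) {z : C} (hz : z ∈ W) : γ z - z ∈ W.nonunits := by
  obtain ⟨e, he⟩ := ex_res halg hW hE hz
  have h1 : γ (z - algebraMap E C e) ∈ W.nonunits := by
    by_cases h0 : z - algebraMap E C e = 0
    · rw [h0, map_zero]
      rw [h0] at he
      exact he
    rw [ValuationSubring.mem_nonunits_iff] at he ⊢
    have h2 : ∀ y : C, y ≠ 0 → (W.valuation y < 1 ↔ y⁻¹ ∉ W) := by
      intro y hy
      rw [← ValuationSubring.valuation_le_one_iff, map_inv₀, not_le]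
      exact (one_lt_inv₀ (zero_lt_iff.2 ((_root_.map_ne_zero W.valuation).2 hy))).symm
    rw [h2 _ h0] at he
    rw [h2 _ ((_root_.map_ne_zero γ).2 h0), ← map_inv₀, hγ]
    exact he
  have h3 : γ z - z = γ (z - algebraMap E C e) - (z - algebraMap E C e) := by
    rw [map_sub, hγE]
    ring
  rw [h3]
  rw [ValuationSubring.mem_nonunits_iff] at he h1 ⊢
  exact lt_of_le_of_lt (W.valuation.map_sub _ _) (max_lt h1 he)

/-- **Block KUM2.** -/
theorem kum2 (hBCF : StmtBCFK) (hEXT : StmtEXT) (hP2 : StmtP2J) : StmtKUM2 := by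
  intro E C _ _ _ _ _ _ A T q m J U S _ π h a Fv u hs e he l hl S₀ B hS₀ hB
  classical
  have hC0 := hs.charC
  have hqC := hs.hqC
  -- the first enlargement
  obtain ⟨q₁, hq₁, hq₁B⟩ := exists_prim1 (K := ad A {T}) (insert q B) (by
    intro b hb
    rcases Finset.mem_insert.1 hb with rfl | hb
    · exact hs.hq
    · exact mem_acl.1 (hB b hb))
  have hq₁C : q₁ ∈ acl (ad A {T}) := mem_acl.2 hq₁
  have hBq : ∀ b ∈ insert q B, b ∈ ad A {T, q₁} := by
    intro b hb
    rw [ad_pair, hq₁B]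
    exact mem_ad hb
  obtain ⟨R, hR, hR'⟩ := hBCF hs.hA hs.hT hs.halg hq₁ l hl S₀ hS₀
  -- the second enlargement
  obtain ⟨X, q₂, hX, hq₂, h1, -, hreg⟩ := exists_enl hs.sd.tr (insert q₁ R) (by
    intro b hb
    rcases Finset.mem_insert.1 hb with rfl | hb
    · exact hq₁C
    · exact (hR b hb).1)
  have hq₁₂ : ad A {T, q₁} ≤ ad A {T, q₂} := by
    refine ad_le le_ad ?_
    rintro z (hz | hz)
    · rw [hz]
      exact mem_ad (Or.inl rfl)
    · rw [Set.mem_singleton_iff.1 hz]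
      exact h1 q₁ (Finset.mem_insert_self _ _)
  have hAX : ad A {T, q₂} ≤ ad (ad A (X : Set C)) {T, q₂} := ad_mono le_ad le_rfl
  have hs₂ := hEXT h hs X hX q₂ hq₂ (hAX (hq₁₂ (hBq q (Finset.mem_insert_self _ _))))
  refine ⟨insert q₂ X, ?_, ?_⟩
  · intro b hb
    rcases Finset.mem_insert.1 hb with rfl | hb
    · exact hq₂
    · exact acl_mono le_ad (hX b hb)
  filter_upwards [hP2 h hs₂ hreg e he] with j hj r k1 k2 k3 γ hγ hγB
  by_cases hr0 : r = 0
  · rw [hr0, map_zero]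
  have hAF := hs.hAFv j
  -- the fields
  have hK1 : ad A {T, q₁} ≤ ad (Fv j) {T, q₁} := ad_mono hAF le_rfl
  have hqK : ∀ b ∈ insert q B, b ∈ ad (Fv j) {T, q₁} := fun b hb => hK1 (hBq b hb)
  have hKK1 : ad (Fv j) {T, q} ≤ ad (Fv j) {T, q₁} := by
    refine ad_le le_ad ?_
    rintro z (hz | hz)
    · rw [hz]
      exact mem_ad (Or.inl rfl)
    · rw [Set.mem_singleton_iff.1 hz]
      exact hqK q (Finset.mem_insert_self _ _)
  set K2 : Subfield C := ad (ad (Fv j) (X : Set C)) {T, q₂} with hK2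
  have hAK2 : ad A {T, q₂} ≤ K2 := hAX.trans (ad_mono (ad_mono hAF le_rfl) le_rfl)
  have hFK2 : Fv j ≤ K2 := le_ad.trans le_ad
  have hK12 : ad (Fv j) {T, q₁} ≤ K2 := by
    refine ad_le hFK2 ?_
    rintro z (hz | hz)
    · rw [hz]
      exact mem_ad (Or.inl rfl)
    · rw [Set.mem_singleton_iff.1 hz]
      exact hAK2 (h1 q₁ (Finset.mem_insert_self _ _))
  set κ : Subfield C := (algebraMap E C).fieldRange with hκ
  have hFκ : Fv j ≤ κ := hs.hFv j
  have hKκ : ad (Fv j) {T, q₁} ≤ ad κ {T, q₁} := ad_mono hFκ le_rfl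
  -- (α)
  have hrl : r ^ l ∈ ad (Fv j) {T, q₁} := by
    refine Pool.Agent.UT.mem_of_fixed' fun σ hσ => k1 σ (fun z hz => hσ z (hKK1 hz)) fun b hb =>
      hσ b (hqK b (Finset.mem_insert_of_mem hb))
  -- (β)
  obtain ⟨w, hw, hrw⟩ := hR' r hr0 (hKκ hrl) (by
    intro W hW hE hWS γ' hγ'
    have hfix : ∀ z ∈ ad (Fv j) {T, q₁}, γ' z = z := fun z hz => hγ'.fix z (hKκ hz)
    refine k2 W hW hE hWS γ' ⟨fun z hz => hfix z (hKK1 hz), hγ'.stab⟩ ?_ fun b hb =>
      hfix b (hqK b (Finset.mem_insert_of_mem hb))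
    exact fun z hz => inert_of hs.halg hW hE (fun e => hγ'.fix _ (le_ad ⟨e, rfl⟩)) hγ'.stab hz)
  obtain ⟨hw1, hw0, -⟩ := hR w hw
  have hwK : w ∈ K2 := hAK2 (h1 w (Finset.mem_insert_of_mem hw))
  -- (γ)
  have hn : r / w ∈ ad κ {T, q₂} := by
    refine (ad_le le_ad ?_ : ad κ {T, q₁} ≤ _) hrw
    have h2 : ad A {T, q₂} ≤ ad κ {T, q₂} := ad_mono hs.hA le_rfl
    rintro z (hz | hz)
    · rw [hz]
      exact mem_ad (Or.inl rfl)
    · rw [Set.mem_singleton_iff.1 hz]
      exact h2 (h1 q₁ (Finset.mem_insert_self _ _))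
  have hXκ : ad (Fv j) (X : Set C) ≤ κ := ad_le hFκ fun z hz => acl_range hs.hA (hX z hz)
  have hκcl : ∀ z, IsAlgebraic κ z → z ∈ κ := fun z hz => by
    have h2 : acl κ ≤ κ := acl_range (A := κ) le_rfl
    exact h2 (mem_acl.2 hz)
  have hTκ : Transcendental κ T := by
    intro h0
    exact hs.hT (Pool.Agent.TD.isAlgebraic_range_iff.1 h0)
  have hq₂F : IsAlgebraic (ad (ad (Fv j) (X : Set C)) {T}) q₂ :=
    isAlgebraic_mono (ad_mono (hAF.trans le_ad) le_rfl) (mem_acl.1 hq₂)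
  obtain ⟨ε, hε, hε0, hε1⟩ := kum_desc hXκ hκcl hTκ hq₂F hn hl.pos (by
    rw [div_pow]
    exact K2.div_mem (hK12 hrl) (K2.pow_mem hwK l))
  obtain ⟨c, rfl⟩ := hε
  have hrε : r / algebraMap E C c ∈ K2 := by
    have h2 : r / algebraMap E C c = w * (r / w / algebraMap E C c) := by
      field_simp
    rw [h2]
    exact K2.mul_mem hwK hε1
  have hc : algebraMap E C c ∈ ad (Fv j) (X : Set C) := by
    refine hj c fun W hW γ' hγ' => ?_
    have h2 : γ' r = r := k3 W hW γ' ⟨fun z hz => hγ'.fix z (hK12 (hKK1 hz)), hγ'.stab⟩ fun b hb =>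
      hγ'.fix b (hK12 (hqK b (Finset.mem_insert_of_mem hb)))
    have h3 := hγ'.fix _ hrε
    rw [map_div₀, h2] at h3
    have h4 : γ' (algebraMap E C c) ≠ 0 := (_root_.map_ne_zero γ').2 hε0
    rw [div_eq_div_iff h4 hε0] at h3
    exact (mul_left_cancel₀ hr0 h3).symm
  have hrK : r ∈ K2 := by
    have h2 : r = (r / algebraMap E C c) * algebraMap E C c := by
      field_simp
    rw [h2]
    exact K2.mul_mem hrε (le_ad hc)
  -- the conclusion
  have hfix : K2 ≤ (RingHom.eqLocusField (γ : C →+* C) (RingHom.id C)) := by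
    refine ad_le (ad_le ?_ ?_) ?_
    · exact fun z hz => hγ z (le_ad hz)
    · exact fun z hz => hγB z (Finset.mem_insert_of_mem hz)
    · rintro z (hz | hz)
      · rw [hz]
        exact hγ T (mem_ad (Or.inl rfl))
      · rw [Set.mem_singleton_iff.1 hz]
        exact hγB q₂ (Finset.mem_insert_self _ _)
  exact hfix hrK

end Pool.Agent.FFX
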