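import Pool.Agent.Helper10.FF.THR
import Pool.Agent.Helper10.FF.KUM
import Pool.Agent.Helper59.FF.FS
import Pool.Agent.Helper59.FF.KEY
import Pool.Agent.Helper20.FF.P2J
import Pool.Agent.Helper20.FF.TH2
import Pool.Agent.Helper13.FF.EPFc
import Pool.Agent.Helper40.FF.EXT
import Pool.Agent.Helper40.FF.BCFK
import Pool.Agent.Helper40.FF.BE

/-!
# Project FF: the field side, all blocks together
-/

set_option autoImplicit false

namespace Pool.Agent.FFX

/-- **StmtFS**, from the last block. -/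
theorem fs_of (hTH2 : StmtTH2) : FFS.StmtFS :=
  fs (key (h3b Pool.Agent.FF40.stmtGA Pool.Agent.FF40.stmtEXT)
    (kum2 Pool.Agent.FF40.stmtBCFK Pool.Agent.FF40.stmtEXT (p2j Pool.Agent.FF40.stmtBE (thr hTH2)))) epf

/-- **StmtFS.** -/
theorem stmtFS : FFS.StmtFS := fs_of th2

end Pool.Agent.FFX
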