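import Pool.Agent.Helper10.FF.H3a

/-!
# Project FF, block H3J: all zeros are conjugate
-/

set_option autoImplicit false
set_option linter.unusedSectionVars false

namespace Pool.Agent.FFX

open Polynomial Pool.Agent.LT Pool.Agent.SC Pool.Agent.Helper37.UL UL Pool.Agent.OPN Pool.Agent.OPG _root_.TW Pool.Agent.TWT

variable {E C : Type} [Field E] [IsAlgClosed E] [CharZero E] [Field C] [IsAlgClosed C] [Algebra E C]
    {A : Subfield C} {T q : C} {m : ℕ} {J : Type} {U : Ultrafilter J} {S : Type} [Field S]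
    {π : (J → C) →+* S} {h : UP U π} {a : J → Fin (m + 2) → E} {Fv : J → Subfield C}
    {u : Fin (m + 2) → C}

open Classical in
/-- the residue, as an element of `E` -/
noncomputable def rs (W : J → ValuationSubring C) (lam : ∀ j, W j →+* E) (c : C) (j : J) : E :=
  if hc : c ∈ W j then lam j ⟨c, hc⟩ else 0

theorem rs_of_mem {W : J → ValuationSubring C} {lam : ∀ j, W j →+* E} {c : C} {j : J} (hc : c ∈ W j) :
    rs W lam c j = lam j ⟨c, hc⟩ := by
  unfold rs
  rw [dif_pos hc]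

theorem algebraMap_rs (W : J → ValuationSubring C) (lam : ∀ j, W j →+* E) (c : C) (j : J) :
    algebraMap E C (rs W lam c j) = lc W lam c j := by
  by_cases hc : c ∈ W j
  · rw [rs_of_mem hc, lc_of_mem hc]
  · unfold rs lc
    rw [dif_neg hc, dif_neg hc, map_zero]

/-- the generic residues are algebraic over the field of germs -/
theorem Zero.alg {W : J → ValuationSubring C} {lam : ∀ j, W j →+* E}
    {ι : acl (ad A {T}) →+* S} (hs : Setup E A T q h a Fv u) (hz : Zero E A T h a u W lam ι)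
    (z : acl (ad A {T})) : IsAlgebraic (h.fsub Fv) (ι z) := by
  set x : Fin (m + 2) → S := xg π fun j e => algebraMap E C (a j e) with hxdef
  have hsd := hs.sd
  have hal : ∀ z : acl (ad A {T}), IsAlgebraic (ad (A.map (UP.cst π)) {ι ⟨T, hs.hTC⟩}) (ι z) :=
    fun z => alg_iotaS hs.hA h hz.hE hz.hlam hz.hι le_acl (mem_acl.1 z.2)
  have hrel : x 0 + ∑ i : Fin (m + 1), x i.succ * ι ⟨u i.succ, hs.hu' _⟩ = 0 :=
    rel_S h hs.hu0 hz.hE hz.hlam hz.hlam0 (fun c hc => hz.mem hs hc) hz.hι hz.hv hs.hu'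
  have hτx : IsAlgebraic (gn (A.map (UP.cst π)) x) (ι ⟨T, hs.hTC⟩) := by
    have h1 := _root_.TW.tau_alg_W hs.hx hrel (τ := ι ⟨T, hs.hTC⟩) fun i => alg_adjoin_iff.2 (hal _)
    rw [← adjoin_toSubfield_gn]
    exact h1
  have hgD : gn (A.map (UP.cst π)) x ≤ h.fsub Fv := gn_le hsd.hAD hsd.hxD
  have h2 : ad (A.map (UP.cst π)) {ι ⟨T, hs.hTC⟩} ≤ acl (h.fsub Fv) := by
    refine ad_le (hsd.hAD.trans le_acl) ?_
    intro y hy
    rw [Set.mem_singleton_iff.1 hy]
    exact mem_acl.2 (isAlgebraic_mono hgD hτx)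
  exact mem_acl.1 (acl_closed (isAlgebraic_mono h2 (hal z)))

/-- polynomials of bounded degree with algebraic germs, over the constants -/
theorem Zero.ev_poly {W : J → ValuationSubring C} {lam : ∀ j, W j →+* E}
    {ι : acl (ad A {T}) →+* S} (hs : Setup E A T q h a Fv u) (hz : Zero E A T h a u W lam ι)
    {c : C} (hc : c ∈ acl (ad A {T})) :
    ∃ n : ℕ, ∀ᶠ j in (U : Filter J), ∃ p : E[X], p ≠ 0 ∧ p.natDegree ≤ n ∧
      (∀ i, p.coeff i ∈ (Fv j).comap (algebraMap E C)) ∧ p.eval (rs W lam c j) = 0 := by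
  have h1 := hz.alg hs ⟨c, hc⟩
  rw [hz.hι] at h1
  obtain ⟨n, hn⟩ := ev_bd h h1
  refine ⟨n, hn.mono fun j hj => ?_⟩
  obtain ⟨p, hp0, hpn, hpc⟩ := hj
  have h2 : ∀ z : Fv j, ∃ e : E, algebraMap E C e = z := fun z => hs.hFv j z.2
  let φ : Fv j →+* E := by
    let e : E ≃+* (algebraMap E C).fieldRange :=
      RingEquiv.ofBijective (algebraMap E C).rangeRestrictField
        ⟨(algebraMap E C).rangeRestrictField.injective, fun ⟨_, e, he⟩ => ⟨e, Subtype.ext he⟩⟩
    exact (e.symm : (algebraMap E C).fieldRange →+* E).comp (Subfield.inclusion (hs.hFv j))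
  have hφ : ∀ z : Fv j, algebraMap E C (φ z) = z := by
    intro z
    let e : E ≃+* (algebraMap E C).fieldRange :=
      RingEquiv.ofBijective (algebraMap E C).rangeRestrictField
        ⟨(algebraMap E C).rangeRestrictField.injective, fun ⟨_, e, he⟩ => ⟨e, Subtype.ext he⟩⟩
    have h1 : e (e.symm (Subfield.inclusion (hs.hFv j) z)) = Subfield.inclusion (hs.hFv j) z :=
      e.apply_symm_apply _
    exact congrArg Subtype.val h1
  refine ⟨p.map φ, (Polynomial.map_ne_zero_iff φ.injective).2 hp0, natDegree_map_le.trans hpn, ?_, ?_⟩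
  · intro i
    rw [coeff_map, Subfield.mem_comap, hφ]
    exact (p.coeff i).2
  · apply (algebraMap E C).injective
    rw [map_zero, ← hpc]
    have h3 := hom_eval₂ p φ (algebraMap E C) (rs W lam c j)
    rw [← eval_map, algebraMap_rs] at h3
    rw [h3, aeval_def]
    congr 1
    exact RingHom.ext fun z => hφ z

/-- **Block H3J.** -/
theorem h3j (hGA : StmtGA) : StmtH3J := by
  intro E C _ _ _ _ _ _ A T q m J U S _ π h a Fv u hs
  classical
  have hC0 := hs.charC
  have hSa : IsAlgClosed S := h.isAlgClosed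
  -- choice of two zeros
  suffices hmain : ∀ W W' : J → ValuationSubring C, (∀ᶠ j in (U : Filter J), IsZ E (gv a u j) (W j)) →
      (∀ᶠ j in (U : Filter J), IsZ E (gv a u j) (W' j)) → ∀ᶠ j in (U : Filter J),
      ∃ γ : C ≃+* C, (∀ z ∈ ad (Fv j) {T, q}, γ z = z) ∧ ∀ z, γ z ∈ W j ↔ z ∈ W' j by
    have h1 := ev_forall (U := U) (E := E) (a := a) (u := u) (fun j W => ∀ W' : ValuationSubring C,
      IsZ E (gv a u j) W' → ∃ γ : C ≃+* C, (∀ z ∈ ad (Fv j) {T, q}, γ z = z) ∧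
        ∀ z, γ z ∈ W ↔ z ∈ W') fun W hW => ev_forall (U := U) (E := E) (a := a) (u := u)
      (fun j W' => ∃ γ : C ≃+* C, (∀ z ∈ ad (Fv j) {T, q}, γ z = z) ∧ ∀ z, γ z ∈ W j ↔ z ∈ W')
      fun W' hW' => hmain W W' hW hW'
    filter_upwards [h1] with j hj W W' hW hW'
    exact hj W hW W' hW'
  intro W₀ W₀' hW₀ hW₀'
  obtain ⟨W, lam, ι, hWW, hz⟩ := exists_zero hs hW₀
  obtain ⟨W', lam', ι', hWW', hz'⟩ := exists_zero hs hW₀'
  -- automorphisms of the constants
  have hclaim : ∀ᶠ j in (U : Filter J), ∃ σ : E ≃+* E,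
      (∀ z ∈ (Fv j).comap (algebraMap E C), σ z = z) ∧ σ (rs W' lam' T j) = rs W lam T j ∧
        σ (rs W' lam' q j) = rs W lam q j := by
    by_contra hcon
    rw [← Ultrafilter.eventually_not] at hcon
    obtain ⟨n₁, hn₁⟩ := hz'.ev_poly hs hs.hTC
    obtain ⟨n₂, hn₂⟩ := hz'.ev_poly hs hs.hqC
    set n := max n₁ n₂ with hn
    have h1 : ∀ᶠ j in (U : Filter J), ∃ c ∈ (Finset.range (n * n + 1) : Set ℕ), ∃ M : E[X],
        M.natDegree ≤ n * n ∧ (∀ i, M.coeff i ∈ (Fv j).comap (algebraMap E C)) ∧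
        M.eval (rs W' lam' T j + c * rs W' lam' q j) = 0 ∧
        M.eval (rs W lam T j + c * rs W lam q j) ≠ 0 := by
      filter_upwards [hcon, hn₁, hn₂] with j hj h1 h2
      obtain ⟨p₁, a1, a2, a3, a4⟩ := h1
      obtain ⟨p₂, b1, b2, b3, b4⟩ := h2
      push Not at hj
      obtain ⟨c, M, k1, k2, k3, k4, k5⟩ := exists_sep a1 b1 (a2.trans (le_max_left n₁ n₂))
        (b2.trans (le_max_right n₁ n₂)) a3 b3 a4 b4 (fun σ hσ h3 => hj σ hσ h3.1 h3.2)
      exact ⟨c, by simpa [Nat.lt_succ_iff] using k1, M, k2, k3, k4, k5⟩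
    rw [Ultrafilter.eventually_exists_mem_iff (Finset.finite_toSet _)] at h1
    obtain ⟨c, -, h1⟩ := h1
    have h2 : ∀ j, ∃ M : E[X], (∀ i, M.coeff i ∈ (Fv j).comap (algebraMap E C)) ∧ M.natDegree ≤ n * n ∧
        ((∃ M : E[X], M.natDegree ≤ n * n ∧ (∀ i, M.coeff i ∈ (Fv j).comap (algebraMap E C)) ∧
        M.eval (rs W' lam' T j + c * rs W' lam' q j) = 0 ∧
        M.eval (rs W lam T j + c * rs W lam q j) ≠ 0) →
        M.eval (rs W' lam' T j + c * rs W' lam' q j) = 0 ∧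
        M.eval (rs W lam T j + c * rs W lam q j) ≠ 0) := by
      intro j
      by_cases hj : ∃ M : E[X], M.natDegree ≤ n * n ∧
        (∀ i, M.coeff i ∈ (Fv j).comap (algebraMap E C)) ∧
        M.eval (rs W' lam' T j + c * rs W' lam' q j) = 0 ∧
        M.eval (rs W lam T j + c * rs W lam q j) ≠ 0
      · obtain ⟨M, k1, k2, k3, k4⟩ := hj
        exact ⟨M, k2, k1, fun _ => ⟨k3, k4⟩⟩
      · exact ⟨0, fun i => by rw [coeff_zero]; exact Subfield.zero_mem _, by simp, fun h0 => absurd h0 hj⟩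
    choose M hM1 hM2 hM3 using h2
    let mm : ℕ → J → C := fun i j => algebraMap E C ((M j).coeff i)
    have hmm : ∀ i, π (mm i) ∈ h.fsub Fv := fun i => ⟨mm i, fun j => hM1 j i, rfl⟩
    let MS : (h.fsub Fv)[X] := ∑ i ∈ Finset.range (n * n + 1), Polynomial.C (⟨π (mm i), hmm i⟩ : h.fsub Fv) * X ^ i
    have hev : ∀ g : J → E, aeval (π fun j => algebraMap E C (g j)) MS =
        π (fun j => algebraMap E C ((M j).eval (g j))) := by
      intro g
      have h3 : (fun j => algebraMap E C ((M j).eval (g j))) =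
          ∑ i ∈ Finset.range (n * n + 1), mm i * (fun j => algebraMap E C (g j)) ^ i := by
        funext j
        rw [eval_eq_sum_range' (Nat.lt_succ_of_le (hM2 j)), map_sum]
        simp only [Finset.sum_apply, Pi.mul_apply, Pi.pow_apply]
        refine Finset.sum_congr rfl fun i _ => ?_
        rw [map_mul, map_pow]
      rw [h3, map_sum, map_sum]
      refine Finset.sum_congr rfl fun i _ => ?_
      rw [map_mul, aeval_C, map_pow, aeval_X, map_mul, map_pow]
      rfl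
    have hιz : ∀ (W : J → ValuationSubring C) (lam : ∀ j, W j →+* E)
        (ι : acl (ad A {T}) →+* S), Zero E A T h a u W lam ι →
        ι ⟨T, hs.hTC⟩ + c * ι ⟨q, hs.hqC⟩ =
          π fun j => algebraMap E C (rs W lam T j + c * rs W lam q j) := by
      intro W lam ι hz
      have h3 : (fun j => algebraMap E C (rs W lam T j + c * rs W lam q j)) =
          lc W lam T + (c : J → C) * lc W lam q := by
        funext j
        rw [Pi.add_apply, Pi.mul_apply, map_add, map_mul, algebraMap_rs, algebraMap_rs, map_natCast]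
        rfl
      rw [h3, map_add, map_mul, map_natCast, hz.hι, hz.hι]
    have h3 : aeval (ι' ⟨T, hs.hTC⟩ + c * ι' ⟨q, hs.hqC⟩) MS = 0 := by
      rw [hιz W' lam' ι' hz', hev, h.eq0]
      filter_upwards [h1] with j hj
      rw [(hM3 j hj).1, map_zero]
    have h4 := hGA (UP.cst π) hs.sd hs.hTC hs.hqC ι' ι (hz'.sz hs) (hz.sz hs) c MS h3
    rw [hιz W lam ι hz, hev, h.eq0] at h4
    obtain ⟨j, hj1, hj2⟩ := (h4.and h1).exists
    exact (hM3 j hj2).2 ((_root_.map_eq_zero (algebraMap E C)).1 hj1)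
  -- the equation
  have hA0 : CharZero A := inferInstance
  have hTA : Transcendental A T := hs.sd.tr
  obtain ⟨G, hG, hG'⟩ := exists_eqn (F := A) (θ := q) hTA (alg_adjoin_iff.2 hs.hq)
  have hACs : A ≤ acl (ad A {T}) := le_ad.trans le_acl
  have hG'C : ev2 A T q (derivative G) ∈ acl (ad A {T}) := ev2_mem hACs hs.hTC hs.hqC _
  filter_upwards [hclaim, hWW, hWW', hz.simple hs, hz'.simple hs, hz.mem hs hs.hTC, hz.mem hs hs.hqC,
    hz'.mem hs hs.hTC, hz'.mem hs hs.hqC, hz.unit hs hG'C hG'] with j k1 k2 k3 k4 k5 k6 k7 k8 k9 k10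
  obtain ⟨σ, hσ1, hσ2, hσ3⟩ := k1
  rw [← k2, ← k3]
  obtain ⟨τ, hb, -⟩ := k4
  obtain ⟨τ', hb', -⟩ := k5
  have hτ : rs W lam T j = τ := by
    rw [rs_of_mem k6]
    exact lam_eq (hz.hE j) (hz.hlam j) (hz.hlam0 j) (z := ⟨T, k6⟩)
      (((W j).mem_nonunits_iff).1 hb.t_mem)
  have hτ' : rs W' lam' T j = τ' := by
    rw [rs_of_mem k8]
    exact lam_eq (hz'.hE j) (hz'.hlam j) (hz'.hlam0 j) (z := ⟨T, k8⟩)
      (((W' j).mem_nonunits_iff).1 hb'.t_mem)
  rw [hτ, hτ'] at hσ2
  obtain ⟨γ, hγ1, hγ2, hγ3⟩ := exists_gamma1 hb hb' hs.hT hs.halg σ hσ2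
  have hγF : ∀ r ∈ Fv j, γ r = r := by
    intro r hr
    obtain ⟨e, rfl⟩ := hs.hFv j hr
    rw [hγ2, hσ1 e hr]
  have hγA : ∀ r : A, γ (algebraMap A C r) = algebraMap A C r := fun r => hγF r (hs.hAFv j r.2)
  have hAW : ∀ r : A, algebraMap A C r ∈ W j := by
    intro r
    obtain ⟨e, he⟩ := hs.hA r.2
    change (r : C) ∈ W j
    rw [← he]
    exact hz.hE j e
  have hγq : γ q = q := by
    refine root_unique (R := A) hAW k6 k7 hG k10 ?_ ?_
    · have h1 := map_ev2 (γ : C →+* C) hγA T q G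
      rw [hG, map_zero] at h1
      rw [h1]
      congr 1
      exact congrArg₂ _ hγ3.symm rfl
    · have h1 : (W j).valuation (γ q - algebraMap E C (rs W lam q j)) < 1 := by
        rw [← hσ3, ← hγ2, ← map_sub, val_lt_iff1 hγ1, rs_of_mem k9]
        exact lam_sub (hz'.hE j) (hz'.hlam j) (hz'.hlam0 j) ⟨q, k9⟩
      have h2 : (W j).valuation (q - algebraMap E C (rs W lam q j)) < 1 := by
        rw [rs_of_mem k7]
        exact lam_sub (hz.hE j) (hz.hlam j) (hz.hlam0 j) ⟨q, k7⟩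
      have h3 := Valuation.map_sub_lt _ h1 h2
      rwa [sub_sub_sub_cancel_right] at h3
  refine ⟨γ, ?_, hγ1⟩
  have h1 : ad (Fv j) {T, q} ≤ (γ : C →+* C).eqLocusField (RingHom.id C) := by
    refine ad_le hγF ?_
    rintro y (hy | hy)
    · rw [hy]
      exact hγ3
    · rw [Set.mem_singleton_iff.1 hy]
      exact hγq
  exact fun z hz => h1 hz

end Pool.Agent.FFX
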