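import Pool.Agent.Helper10.FF.Conv

/-!
# Project FF, block H3J, part a: automorphisms of the constants
-/

set_option autoImplicit false
set_option linter.unusedSectionVars false

namespace Pool.Agent.FFX

open Polynomial Pool.Agent.LT Pool.Agent.SC Pool.Agent.Helper37.UL UL Pool.Agent.OPN Pool.Agent.OPG _root_.TW Pool.Agent.TWT

section orbit

variable {E : Type} [Field E] [IsAlgClosed E] [CharZero E]

/-- Two pairs which are not conjugate are separated by a polynomial of bounded degree. -/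
theorem exists_sep {K : Subfield E} {x y x' y' : E} {n : ℕ} {p₁ p₂ : E[X]} (hp₁ : p₁ ≠ 0) (hp₂ : p₂ ≠ 0)
    (hn₁ : p₁.natDegree ≤ n) (hn₂ : p₂.natDegree ≤ n) (hK₁ : ∀ i, p₁.coeff i ∈ K)
    (hK₂ : ∀ i, p₂.coeff i ∈ K) (hx : p₁.eval x = 0) (hy : p₂.eval y = 0)
    (hno : ∀ σ : E ≃+* E, (∀ z ∈ K, σ z = z) → ¬ (σ x = x' ∧ σ y = y')) :
    ∃ (c : ℕ) (M : E[X]), c ≤ n * n ∧ M.natDegree ≤ n * n ∧ (∀ i, M.coeff i ∈ K) ∧
      M.eval (x + c * y) = 0 ∧ M.eval (x' + c * y') ≠ 0 := by
  classical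
  have hfix : ∀ (σ : E ≃+* E), (∀ z ∈ K, σ z = z) → ∀ p : E[X], (∀ i, p.coeff i ∈ K) →
      p.map (σ : E →+* E) = p := by
    intro σ hσ p hp
    ext i
    rw [coeff_map]
    exact hσ _ (hp i)
  have hroot : ∀ (σ : E ≃+* E), (∀ z ∈ K, σ z = z) → ∀ p : E[X], (∀ i, p.coeff i ∈ K) → ∀ z,
      p.eval z = 0 → p.eval (σ z) = 0 := by
    intro σ hσ p hp z hz
    have h1 := hom_eval₂ p (RingHom.id E) (σ : E →+* E) z
    rw [eval₂_id, hz, map_zero, RingHom.comp_id, ← eval_map, hfix σ hσ p hp] at h1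
    exact h1.symm
  let R : Finset (E × E) := p₁.roots.toFinset ×ˢ p₂.roots.toFinset
  have hR : R.card ≤ n * n := by
    rw [Finset.card_product]
    exact Nat.mul_le_mul ((Multiset.toFinset_card_le _).trans ((card_roots' _).trans hn₁))
      ((Multiset.toFinset_card_le _).trans ((card_roots' _).trans hn₂))
  let O : Finset (E × E) := R.filter fun st => ∃ σ : E ≃+* E, (∀ z ∈ K, σ z = z) ∧ σ x = st.1 ∧ σ y = st.2
  have hO : ∀ st : E × E, st ∈ O ↔ ∃ σ : E ≃+* E, (∀ z ∈ K, σ z = z) ∧ σ x = st.1 ∧ σ y = st.2 := by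
    intro st
    rw [Finset.mem_filter]
    refine ⟨fun h => h.2, fun h => ⟨?_, h⟩⟩
    obtain ⟨σ, h1, h2, h3⟩ := h
    rw [Finset.mem_product, Multiset.mem_toFinset, Multiset.mem_toFinset, mem_roots hp₁, mem_roots hp₂,
      IsRoot.def, IsRoot.def, ← h2, ← h3]
    exact ⟨hroot σ h1 p₁ hK₁ x hx, hroot σ h1 p₂ hK₂ y hy⟩
  have hOc : O.card ≤ n * n := (Finset.card_filter_le _ _).trans hR
  let M : ℕ → E[X] := fun c => ∏ st ∈ O, (X - C (st.1 + c * st.2))
  have hMK : ∀ c i, (M c).coeff i ∈ K := by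
    intro c i
    refine Pool.Agent.UT.mem_of_fixed' fun σ hσ => ?_
    have h1 : (M c).map (σ : E →+* E) = M c := by
      change (∏ st ∈ O, (X - C (st.1 + c * st.2))).map (σ : E →+* E) = _
      rw [Polynomial.map_prod]
      refine Finset.prod_bij' (i := fun st _ => ((σ st.1, σ st.2) : E × E))
        (j := fun st _ => ((σ.symm st.1, σ.symm st.2) : E × E)) ?_ ?_ ?_ ?_ ?_
      · intro st hst
        obtain ⟨ρ, h1, h2, h3⟩ := (hO _).1 hst
        refine (hO _).2 ⟨ρ.trans σ, fun z hz => ?_, ?_, ?_⟩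
        · change σ (ρ z) = z
          rw [h1 z hz, hσ z hz]
        · exact congrArg σ h2
        · exact congrArg σ h3
      · intro st hst
        obtain ⟨ρ, h1, h2, h3⟩ := (hO _).1 hst
        refine (hO _).2 ⟨ρ.trans σ.symm, fun z hz => ?_, ?_, ?_⟩
        · change σ.symm (ρ z) = z
          rw [h1 z hz, RingEquiv.symm_apply_eq, hσ z hz]
        · exact congrArg σ.symm h2
        · exact congrArg σ.symm h3
      · intro st _
        simp
      · intro st _
        simp
      · intro st _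
        rw [Polynomial.map_sub, map_X, map_C]
        simp
    have h2 := congrArg (fun p => p.coeff i) h1
    simp only [coeff_map] at h2
    exact h2
  have hMd : ∀ c, (M c).natDegree ≤ n * n := by
    intro c
    change (∏ st ∈ O, (X - C (st.1 + c * st.2))).natDegree ≤ _
    rw [natDegree_prod_of_monic _ _ fun st _ => monic_X_sub_C _]
    simp only [natDegree_X_sub_C, Finset.sum_const, smul_eq_mul, mul_one]
    exact hOc
  have hM0 : ∀ c, (M c).eval (x + c * y) = 0 := by
    intro c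
    change (∏ st ∈ O, (X - C (st.1 + c * st.2))).eval _ = 0
    rw [eval_prod]
    refine Finset.prod_eq_zero ((hO (x, y)).2 ⟨RingEquiv.refl E, fun z _ => rfl, rfl, rfl⟩) ?_
    rw [eval_sub, eval_X, eval_C, sub_self]
  by_contra hcon
  push Not at hcon
  have h1 : ∀ c ∈ Finset.range (n * n + 1), ∃ st ∈ O, st.1 + c * st.2 = x' + c * y' := by
    intro c hc
    have h2 := hcon c (M c) (Nat.lt_succ_iff.1 (Finset.mem_range.1 hc)) (hMd c) (hMK c) (hM0 c)
    change (∏ st ∈ O, (X - C (st.1 + c * st.2))).eval _ = 0 at h2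
    rw [eval_prod, Finset.prod_eq_zero_iff] at h2
    obtain ⟨st, hst, h3⟩ := h2
    rw [eval_sub, eval_X, eval_C, sub_eq_zero] at h3
    exact ⟨st, hst, h3.symm⟩
  choose! f hf1 hf2 using h1
  obtain ⟨c, hc, c', hc', hcc, hff⟩ := Finset.exists_ne_map_eq_of_card_lt_of_maps_to
    (s := Finset.range (n * n + 1)) (t := O) (by rw [Finset.card_range]; omega) (f := f)
    (fun c hc => hf1 c hc)
  have h2 := hf2 c hc
  have h3 := hf2 c' hc'
  rw [← hff] at h3
  have h4 : ((c : E) - c') * ((f c).2 - y') = 0 := by linear_combination h2 - h3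
  have h5 : (c : E) - c' ≠ 0 := by
    rw [sub_ne_zero]
    exact fun h => hcc (by exact_mod_cast h)
  have h6 : (f c).2 = y' := sub_eq_zero.1 ((mul_eq_zero.1 h4).resolve_left h5)
  have h7 : (f c).1 = x' := by
    rw [h6] at h2
    exact add_right_cancel h2
  obtain ⟨σ, g1, g2, g3⟩ := (hO _).1 (hf1 c hc)
  exact hno σ g1 ⟨g2.trans h7, g3.trans h6⟩

end orbit

section gamma

variable {E Ω : Type} [Field E] [Field Ω] [Algebra E Ω] {W W' : ValuationSubring Ω} {T : Ω}
  {τ τ' : E}

/-- lifting an automorphism of the constants to an automorphism which maps one place to another one -/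
theorem exists_gamma1 [CharZero E] [IsAlgClosed Ω]
    (hb : Base E W (T - algebraMap E Ω τ)) (hb' : Base E W' (T - algebraMap E Ω τ'))
    (hTtr : Transcendental E T) (halg : ∀ z : Ω, IsAlgebraic (IntermediateField.adjoin E {T}) z)
    (σ : E ≃+* E) (hσ : σ τ' = τ) :
    ∃ γ : Ω ≃+* Ω, (∀ z, γ z ∈ W ↔ z ∈ W') ∧ (∀ e, γ (algebraMap E Ω e) = algebraMap E Ω (σ e)) ∧
      γ T = T := by
  obtain ⟨ρ, hρ1, hρ2⟩ := exists_rho hTtr halg σ
  have hΩ0 : CharZero Ω := charZero_of_injective_algebraMap (algebraMap E Ω).injective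
  set u : Ω := T - algebraMap E Ω τ' with hu
  have hρu : ρ u = T - algebraMap E Ω τ := by rw [hu, map_sub, hρ2, hρ1, hσ]
  have hadj : IntermediateField.adjoin E {T} = IntermediateField.adjoin E {u} := by
    apply le_antisymm
    · rw [IntermediateField.adjoin_simple_le_iff]
      have h1 : T = u + algebraMap E Ω τ' := by rw [hu]; ring
      rw [h1]
      exact add_mem (IntermediateField.mem_adjoin_simple_self _ _)
        (IntermediateField.algebraMap_mem _ _)
    · rw [IntermediateField.adjoin_simple_le_iff]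
      exact sub_mem (IntermediateField.mem_adjoin_simple_self _ _)
        (IntermediateField.algebraMap_mem _ _)
  rw [hadj] at halg
  have h1 : Algebra.IsAlgebraic (IntermediateField.adjoin E {u}) Ω := ⟨halg⟩
  have h2 : IsAlgClosure (IntermediateField.adjoin E {u}) Ω := ⟨inferInstance, inferInstance⟩
  have h3 : IsGalois (IntermediateField.adjoin E {u}) Ω := inferInstance
  have hlt : W'.valuation u < 1 := (W'.mem_nonunits_iff).1 hb'.t_mem
  have hlt' : (W.comap (ρ : Ω →+* Ω)).valuation u < 1 := by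
    rw [← ValuationSubring.mem_nonunits_iff, ValuationSubring.mem_nonunits_iff_or]
    right
    intro h5
    have h6 : ρ u⁻¹ ∈ W := h5
    rw [map_inv₀, hρu] at h6
    rcases (ValuationSubring.mem_nonunits_iff_or _).1 hb.t_mem with h4 | h4
    · exact hb.t_ne h4
    · exact h4 h6
  obtain ⟨σ', hσ'⟩ := exists_conj_val (L := IntermediateField.adjoin E {u}) W'
    (W.comap (ρ : Ω →+* Ω)) (fun c =>
      mem_iff_mem (L := E) hb'.t_ne c.2 hb'.const hlt (fun e => by
        change ρ (algebraMap E Ω e) ∈ W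
        rw [hρ1]
        exact hb.const _) hlt')
  refine ⟨σ'.toRingEquiv.trans ρ, fun z => hσ' z, fun e => ?_, ?_⟩
  · change ρ (σ' (algebraMap E Ω e)) = _
    have h4 : σ' (algebraMap E Ω e) = algebraMap E Ω e :=
      σ'.commutes (algebraMap E (IntermediateField.adjoin E {u}) e)
    rw [h4, hρ1]
  · change ρ (σ' T) = T
    have h4 : σ' T = T := by
      have h5 : T ∈ IntermediateField.adjoin E {u} := by
        rw [← hadj]
        exact IntermediateField.mem_adjoin_simple_self _ _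
      exact σ'.commutes ⟨T, h5⟩
    rw [h4, hρ2]

/-- values under an isomorphism -/
theorem val_lt_iff1 {γ : Ω ≃+* Ω} (hγ : ∀ z, γ z ∈ W ↔ z ∈ W') {x : Ω} :
    W.valuation (γ x) < 1 ↔ W'.valuation x < 1 := by
  rw [← ValuationSubring.mem_nonunits_iff, ← ValuationSubring.mem_nonunits_iff,
    ValuationSubring.mem_nonunits_iff_or, ValuationSubring.mem_nonunits_iff_or, ← map_inv₀, hγ,
    map_eq_zero_iff _ γ.injective]

end gamma

section germs

variable {C : Type} [Field C] {J : Type} {U : Ultrafilter J} {S : Type} [Field S]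
  {π : (J → C) →+* S} (h : UP U π)

include h in
/-- algebraic germs satisfy equations of bounded degree -/
theorem ev_bd {Y : J → Subfield C} {f : J → C} (hf : IsAlgebraic (h.fsub Y) (π f)) :
    ∃ n : ℕ, ∀ᶠ j in (U : Filter J), ∃ p : (Y j)[X], p ≠ 0 ∧ p.natDegree ≤ n ∧ aeval (f j) p = 0 := by
  classical
  obtain ⟨n, c, hc, hc0, hcf⟩ := isAlgebraic_iff.mp hf
  obtain ⟨g, hg, hgc⟩ := h.lift_familyV hc
  obtain ⟨i₀, hi₀⟩ : ∃ i, c i ≠ 0 := by
    by_contra hcon
    push Not at hcon
    exact hc0 (funext hcon)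
  have h1 : ∀ᶠ j in (U : Filter J), g i₀ j ≠ 0 := by
    rw [← h.ne0, hgc]
    exact hi₀
  have h2 : ∀ᶠ j in (U : Filter J), ∑ i, g i j * f j ^ (i : ℕ) = 0 := by
    have h3 : π (fun j => ∑ i, g i j * f j ^ (i : ℕ)) = 0 := by
      have h4 : (fun j => ∑ i, g i j * f j ^ (i : ℕ)) = ∑ i, g i * f ^ (i : ℕ) := by
        funext j
        simp only [Finset.sum_apply, Pi.mul_apply, Pi.pow_apply]
      rw [h4, map_sum, ← hcf]
      refine Finset.sum_congr rfl fun i _ => ?_
      rw [map_mul, map_pow, hgc]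
    exact (h.eq0 _).1 h3
  refine ⟨n + 1, ?_⟩
  filter_upwards [h1, h2] with j h1 h2
  set p : (Y j)[X] := ∑ i : Fin (n + 1), Polynomial.C (⟨g i j, hg i j⟩ : Y j) * X ^ (i : ℕ) with hp
  refine ⟨p, ?_, ?_, ?_⟩
  · intro h0
    apply h1
    have h5 := congrArg (fun q => q.coeff i₀) h0
    simp only [hp, finsetSum_coeff, coeff_C_mul, coeff_X_pow, coeff_zero] at h5
    rw [Finset.sum_eq_single i₀] at h5
    · simp only [if_true, mul_one] at h5
      exact congrArg Subtype.val h5
    · intro l _ hl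
      rw [if_neg, mul_zero]
      intro h6
      exact hl (Fin.ext h6.symm)
    · intro h6
      exact absurd (Finset.mem_univ _) h6
  · rw [hp]
    refine natDegree_sum_le_of_forall_le _ _ fun i _ => ?_
    exact (natDegree_C_mul_X_pow_le _ _).trans i.2.le
  · rw [← h2, hp, map_sum]
    refine Finset.sum_congr rfl fun i _ => ?_
    rw [map_mul, aeval_C, map_pow, aeval_X]
    rfl

end germs

end Pool.Agent.FFX
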