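import Pool.Agent.Helper10.FF.Enl
import Pool.Agent.Helper10.UT.Mv

/-!
# Project FF: `ℓ`-th roots over the field of constants
-/

set_option autoImplicit false
set_option linter.unusedSectionVars false

namespace Pool.Agent.FFX

open Polynomial Pool.Agent.LT Pool.Agent.SC Pool.Agent.Helper37.UL UL Pool.Agent.OPN Pool.Agent.OPG _root_.TW Pool.Agent.TWT

variable {C : Type} [Field C]

/-- the field generated by algebraic elements is spanned -/
theorem span_ad {M κ : Subfield C} (hκ : ∀ z ∈ κ, IsAlgebraic M z) {z : C} (hz : z ∈ ad M (κ : Set C)) :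
    z ∈ Submodule.span κ (M : Set C) := by
  have h1 : z ∈ (IntermediateField.adjoin M (κ : Set C)).toSubalgebra := mem_adjoin_iff.2 hz
  rw [IntermediateField.adjoin_toSubalgebra_of_isAlgebraic hκ] at h1
  have h2 : (Subalgebra.toSubmodule (Algebra.adjoin κ (M : Set C))) = Submodule.span κ (M : Set C) := by
    rw [Algebra.adjoin_eq_span]
    congr 1
    exact congrArg (fun N : Submonoid C => (N : Set C)) (Submonoid.closure_eq M.toSubmonoid)
  rw [← h2]
  change z ∈ Algebra.adjoin κ (M : Set C)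
  clear hz h2
  induction h1 using Algebra.adjoin_induction with
  | mem x hx => exact (Algebra.adjoin κ (M : Set C)).algebraMap_mem (⟨x, hx⟩ : κ)
  | algebraMap r => exact Algebra.subset_adjoin r.2
  | add x y _ _ hx hy => exact add_mem hx hy
  | mul x y _ _ hx hy => exact mul_mem hx hy

variable [IsAlgClosed C] [CharZero C]

omit [IsAlgClosed C] [CharZero C] in
theorem sum_mr {κ : Subfield C} {b : Type} (v : b → C) (c : b →₀ κ) (σ' : κ →+ κ) :
    Finsupp.linearCombination κ v (Finsupp.mapRange σ' (map_zero σ') c) =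
      ∑ x ∈ c.support, σ' (c x) • v x := by
  rw [Finsupp.linearCombination_apply]
  refine (Finsupp.sum_mapRange_index fun a => zero_smul κ (v a)).trans ?_
  rfl

/-- descent of algebraic elements -/
theorem desc_alg {L Fs : Subfield C} (hLF : L ≤ Fs) (hrel : ∀ z ∈ Fs, IsAlgebraic L z → z ∈ L) {q n : C}
    (hq : IsAlgebraic L q) (hn : IsAlgebraic L n) (hnF : n ∈ ad Fs {q}) : n ∈ ad L {q} := by
  let _ : Algebra L Fs := (Subfield.inclusion hLF).toAlgebra
  have hst : IsScalarTower L Fs C := IsScalarTower.of_algebraMap_eq fun _ => rfl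
  have h0 : CharZero L := inferInstance
  have h2 : n ∈ IntermediateField.adjoin L {q} := by
    refine RR.mem_adjoin_of_relClosed (L := L) (Fs := Fs) ?_ ?_ hn (mem_adjoin_iff.2 hnF)
    · intro z hz
      have h3 : IsAlgebraic L (z : C) := hz.algebraMap (A := C)
      exact ⟨⟨z, hrel z z.2 h3⟩, rfl⟩
    · intro z hz
      rw [Set.mem_singleton_iff.1 hz]
      exact hq
  exact mem_adjoin_iff.1 h2

/-- the action on a sum -/
theorem act_coeff {κ M : Subfield C} {b : Set C} (hb : LinearIndependent κ (Subtype.val : b → C))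
    (hbM : b ⊆ M) {c : b →₀ κ} {σ : C →+* C} (hσ : ∀ z ∈ M, σ z = z) (hσκ : ∀ z ∈ κ, σ z ∈ κ) {ζ : C}
    (hζ : ζ ∈ κ) (h : σ (Finsupp.linearCombination κ (Subtype.val : b → C) c) =
      ζ * Finsupp.linearCombination κ (Subtype.val : b → C) c) (i : b) : σ (c i : C) = ζ * (c i : C) := by
  classical
  let σ' : κ →+ κ :=
    { toFun := fun z => ⟨σ z, hσκ z z.2⟩
      map_zero' := Subtype.ext (map_zero σ)
      map_add' := fun x y => Subtype.ext (map_add σ (x : C) (y : C)) }
  let c₂ : b →₀ κ := (⟨ζ, hζ⟩ : κ) • c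
  have h3 : Finsupp.linearCombination κ (Subtype.val : b → C) (Finsupp.mapRange σ' (map_zero σ') c) =
      Finsupp.linearCombination κ (Subtype.val : b → C) c₂ := by
    have h5 : Finsupp.linearCombination κ (Subtype.val : b → C) c₂ =
        ζ * Finsupp.linearCombination κ (Subtype.val : b → C) c := by
      rw [map_smul]
      rfl
    rw [h5, ← h, sum_mr, Finsupp.linearCombination_apply, Finsupp.sum, map_sum]
    refine Finset.sum_congr rfl fun y _ => ?_
    change σ (c y : C) * (y : C) = σ ((c y : C) * (y : C))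
    rw [map_mul, hσ _ (hbM y.2)]
  have h4 := hb h3
  exact congrArg (fun f : b →₀ κ => ((f i : κ) : C)) h4

/-- algebraic closures are preserved -/
theorem acl_act {F M : Subfield C} (hFM : F ≤ M) {σ : C →+* C} (hσ : ∀ z ∈ M, σ z = z) {z : C}
    (hz : z ∈ acl F) : σ z ∈ acl F := by
  obtain ⟨p, hp0, hp⟩ := mem_acl.1 hz
  refine mem_acl.2 ⟨p, hp0, ?_⟩
  have h3 := congrArg σ hp
  rw [map_zero, aeval_def] at h3
  have h4 := hom_eval₂ p (algebraMap F C) σ z
  have h5 : σ.comp (algebraMap F C) = algebraMap F C := by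
    ext y
    exact hσ _ (hFM y.2)
  rw [h5] at h4
  rw [aeval_def]
  exact h4.symm.trans h3

/-- elements of an extension by constants, up to constants -/
theorem kum_span {F M : Subfield C} (hFM : F ≤ M) {n : C} {l : ℕ} (hl : 0 < l) (hn0 : n ≠ 0)
    (h2 : n ∈ Submodule.span (acl F) (M : Set C)) (hnl : n ^ l ∈ M) :
    ∃ e ∈ acl F, e ≠ 0 ∧ n / e ∈ M := by
  classical
  obtain ⟨b, hbM, hbs, hbi⟩ := exists_linearIndependent (acl F) (M : Set C)
  rw [← hbs] at h2
  obtain ⟨c, hc⟩ := (Finsupp.mem_span_iff_linearCombination (acl F) b n).1 h2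
  have hc0 : c ≠ 0 := by
    rintro rfl
    exact hn0 (by rw [← hc, map_zero])
  obtain ⟨i, hi⟩ := Finsupp.ne_iff.1 hc0
  have hi' : (c i : C) ≠ 0 := fun h0 => hi (Subtype.ext h0)
  refine ⟨c i, (c i).2, hi', Pool.Agent.UT.mem_of_fixed' fun σ hσ => ?_⟩
  have hζ : (σ n / n) ∈ acl F := by
    refine mem_acl.2 ?_
    have h3 : (σ n / n) ^ l = 1 := by
      rw [div_pow, ← map_pow, hσ _ hnl, div_self (pow_ne_zero l hn0)]
    have h4 : IsAlgebraic F ((σ n / n) ^ l) := by
      rw [h3]
      exact isAlgebraic_one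
    exact h4.of_pow hl
  have h3 := act_coeff hbi hbM (c := c) (σ := (σ : C →+* C)) hσ (fun z hz => acl_act hFM (σ := (σ : C →+* C)) hσ hz)
    hζ (by
      rw [hc]
      change σ n = σ n / n * n
      field_simp) i
  change σ (c i : C) = _ at h3
  rw [map_div₀, h3]
  have h4 : σ n ≠ 0 := (_root_.map_ne_zero σ).2 hn0
  field_simp

/-- **`ℓ`-th roots over the constants.** -/
theorem kum_desc {F κ : Subfield C} (hF : F ≤ κ) (hκ : ∀ z, IsAlgebraic κ z → z ∈ κ) {T q : C}
    (hT : Transcendental κ T) (hq : IsAlgebraic (ad F {T}) q) {n : C} (hn : n ∈ ad κ {T, q}) {l : ℕ}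
    (hl : 0 < l) (hnl : n ^ l ∈ ad F {T, q}) : ∃ e ∈ κ, e ≠ 0 ∧ n / e ∈ ad F {T, q} := by
  by_cases hn0 : n = 0
  · exact ⟨1, κ.one_mem, one_ne_zero, by rw [hn0, zero_div]; exact Subfield.zero_mem _⟩
  have hFM : F ≤ ad F {T, q} := le_ad
  have hκ'κ : acl F ≤ κ := fun z hz => hκ z (isAlgebraic_mono hF (mem_acl.1 hz))
  have hFκ' : F ≤ acl F := le_acl
  have hqL : IsAlgebraic (ad (acl F) {T}) q := isAlgebraic_mono (ad_mono hFκ' le_rfl) hq
  have h4 : ad F {T, q} ≤ acl (ad (acl F) {T}) := by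
    refine ad_le ((hFκ'.trans le_ad).trans le_acl) ?_
    rintro z (hz | hz)
    · rw [hz]
      exact le_acl mem_adE
    · rw [Set.mem_singleton_iff.1 hz]
      exact mem_acl.2 hqL
  have h5 : IsAlgebraic (ad (acl F) {T}) (n ^ l) := mem_acl.1 (h4 hnl)
  have h1 : n ∈ ad (ad (acl F) {T}) {q} := by
    refine desc_alg (ad_mono hκ'κ le_rfl) (gauss_ad hκ'κ (fun y _ hy => acl_closed hy) hT) hqL (h5.of_pow hl) ?_
    rw [← ad_pair]
    exact hn
  rw [← ad_pair] at h1
  have h2 : n ∈ Submodule.span (acl F) ((ad F {T, q} : Subfield C) : Set C) := by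
    refine span_ad (M := ad F {T, q}) (κ := acl F) (fun z hz => isAlgebraic_mono hFM (mem_acl.1 hz)) ?_
    refine (ad_le ?_ ?_ : ad (acl F) {T, q} ≤ _) h1
    · exact fun z hz => mem_ad hz
    · exact fun z hz => le_ad (mem_ad hz)
  obtain ⟨e, he, he0, h6⟩ := kum_span hFM hl hn0 h2 hnl
  exact ⟨e, hκ'κ he, he0, h6⟩

end Pool.Agent.FFX
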