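import Pool.Agent.Helper10.FF.TH1b

/-!
# Project FF, block TH1: three independent zeros
-/

set_option autoImplicit false
set_option linter.unusedSectionVars false

namespace Pool.Agent.FFX

open Polynomial Pool.Agent.LT Pool.Agent.Helper37.UL UL Pool.Agent.OPN Pool.Agent.OPG _root_.TW Pool.Agent.TWT
open Pool.Agent.FF40 (iota_alg kap_le kap_indep le_kap)

variable {C S : Type} [Field C] [Field S] [CharZero C] [IsAlgClosed C] [IsAlgClosed S] {φ : C →+* S}
    {A : Subfield C} {T : C}

theorem range_sub (K : Subfield C) : K.subtype.fieldRange = K := by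
  ext z
  constructor
  · rintro ⟨y, rfl⟩
    exact y.2
  · intro hz
    exact ⟨⟨z, hz⟩, rfl⟩

theorem range_phi (φ : C →+* S) (K : Subfield C) : (φ.comp K.subtype).fieldRange = K.map φ := by
  ext z
  constructor
  · rintro ⟨y, rfl⟩
    exact ⟨y, y.2, rfl⟩
  · rintro ⟨y, hy, rfl⟩
    exact ⟨⟨y, hy⟩, rfl⟩

/-- the embeddings with a given value of `T` -/
theorem ex_emb (hT : Transcendental A T) {t : S} (ht : Transcendental ((acl A).map φ) t) :
    ∃ ι : acl (ad A {T}) →+* S, (∀ z : acl (ad A {T}), (z : C) ∈ acl A → ι z = φ z) ∧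
      ∀ hT : T ∈ acl (ad A {T}), ι ⟨T, hT⟩ = t := by
  have h1 : AlgebraicIndependent (acl A).subtype.fieldRange ![T] := by
    rw [range_sub]
    exact algebraicIndependent_unique_type_iff.2 (tr_acl hT)
  have h2 : AlgebraicIndependent (φ.comp (acl A).subtype).fieldRange ![t] := by
    rw [range_phi]
    exact algebraicIndependent_unique_type_iff.2 ht
  obtain ⟨θ, hθ1, hθ2⟩ := exists_gen (acl A).subtype (φ.comp (acl A).subtype) h1 h2
  have hle : acl (ad A {T}) ≤ acl (gn (acl A).subtype.fieldRange ![T]) := by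
    refine acl_mono (ad_le ?_ ?_)
    · intro z hz
      exact le_gn ⟨⟨z, le_acl hz⟩, rfl⟩
    · intro z hz
      rw [Set.mem_singleton_iff.1 hz]
      exact mem_gn (x := ![T]) 0
  refine ⟨θ.comp (Subfield.inclusion hle), fun z hz => ?_, fun hT => ?_⟩
  · exact hθ1 ⟨z, hz⟩ (hle z.2)
  · exact hθ2 0 (hle hT)

/-- **Block TH1.** -/
theorem th1 : StmtTH1 := by
  intro C S _ _ _ _ _ φ A T m u x hT hu hu0 hu1 hx e he
  classical
  have hS0 : CharZero S := charZero_of_injective_ringHom φ.injective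
  have hTC : T ∈ acl (ad A {T}) := le_acl mem_adE
  set K₀ : Subfield S := (acl A).map φ with hK₀
  have hx0 : AlgebraicIndependent K₀ x := kap_indep hx
  -- the functions `u a`, `u b`
  have hcard : ∀ w : Finset C, w.card < 4 → ∃ i, u i ∉ Submodule.span (acl A) (w : Set C) := by
    intro w hw
    by_contra hcon
    push Not at hcon
    have h1 := linearIndependent_le_span' (fun i => u (e i)) he (w : Set C) (by
      rintro _ ⟨i, rfl⟩
      exact hcon _)
    rw [Cardinal.mk_fin] at h1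
    have h2 : 4 ≤ Fintype.card (w : Set C) := by exact_mod_cast h1
    have h3 : Fintype.card (w : Set C) = w.card := by simp
    omega
  have hdual : ∀ (p : Submodule (acl A) C) (z : C), z ∉ p →
      ∃ l : Module.Dual (acl A) C, l z ≠ 0 ∧ ∀ y ∈ p, l y = 0 := by
    intro p z hz
    obtain ⟨f, hf, hf'⟩ := p.exists_dual_map_eq_bot_of_notMem hz inferInstance
    refine ⟨f, hf, fun y hy => ?_⟩
    have h1 : f y ∈ p.map f := ⟨y, hy, rfl⟩
    rw [hf'] at h1
    exact (Submodule.mem_bot _).1 h1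
  obtain ⟨a, ha⟩ := hcard {1, T} (lt_of_le_of_lt (Finset.card_le_two) (by norm_num))
  obtain ⟨b, hb⟩ := hcard {1, T, u a} (lt_of_le_of_lt (Finset.card_le_three) (by norm_num))
  obtain ⟨la, hla, hla'⟩ := hdual _ _ ha
  obtain ⟨lb, hlb, hlb'⟩ := hdual _ _ hb
  have hT1 : T ≠ 1 := by
    rintro rfl
    exact hT isAlgebraic_one
  have ha1 : u a ≠ 1 := fun h0 => ha (by rw [h0]; exact Submodule.subset_span (by simp))
  have haT : u a ≠ T := fun h0 => ha (by rw [h0]; exact Submodule.subset_span (by simp))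
  let p : Fin 3 → Fin (m + 2) := ![0, 1, a]
  have hup : ∀ k, u (p k) = ![1, T, u a] k := by
    intro k
    fin_cases k
    · exact hu0
    · exact hu1
    · rfl
  have hp : Function.Injective p := by
    intro k k' hkk
    have h1 : ![1, T, u a] k = ![1, T, u a] k' := by rw [← hup, ← hup, hkk]
    revert h1
    fin_cases k <;> fin_cases k' <;> simp [hT1, hT1.symm, ha1, ha1.symm, haT, haT.symm]
  -- the points
  have htr : ∀ i, Transcendental K₀ (x i) := fun i => hx0.transcendental i
  choose ι hι1 hι2 using fun i : Fin 3 => ex_emb (φ := φ) hT (htr (p i))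
  have hxp := hx0.comp p hp
  have hpinj := hxp.injective
  have hιK : ∀ i (z : acl (ad A {T})), ι i z ∈ acl (ad K₀ {x (p i)}) := by
    intro i z
    have h1 := iota_alg (ι i) (hι1 i) hTC z
    rwa [hι2 i hTC] at h1
  -- the determinant
  set al : Fin 3 → S := fun i => ι i ⟨u a, hu a⟩ with hal
  let M : Matrix (Fin 3) (Fin 3) S := fun i k => ι i ⟨u (p k), hu (p k)⟩
  have hM0 : ∀ i, M i 0 = 1 := by
    intro i
    have h1 : (⟨u (p 0), hu (p 0)⟩ : acl (ad A {T})) = 1 := Subtype.ext hu0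
    change ι i ⟨u (p 0), hu (p 0)⟩ = 1
    rw [h1, map_one]
  have hM1 : ∀ i, M i 1 = x (p i) := by
    intro i
    have h1 : (⟨u (p 1), hu (p 1)⟩ : acl (ad A {T})) = ⟨T, hTC⟩ := Subtype.ext hu1
    change ι i ⟨u (p 1), hu (p 1)⟩ = x (p i)
    rw [h1, hι2]
  have hM2 : ∀ i, M i 2 = al i := fun i => rfl
  have hdet : M.det ≠ 0 := by
    intro h0
    rw [Matrix.det_fin_three] at h0
    simp only [hM0, hM1, hM2] at h0
    have h1 : Transcendental (acl (gen K₀ (fun k : Fin 2 => (x ∘ p) k.succ))) ((x ∘ p) 0) :=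
      tr_acl (UL.transc_gen hxp)
    set Ω : Subfield S := acl (gen K₀ (fun k : Fin 2 => (x ∘ p) k.succ)) with hΩ
    have hKΩ : K₀ ≤ Ω := le_gen.trans le_acl
    have hxΩ : ∀ k : Fin 2, x (p k.succ) ∈ Ω := fun k =>
      le_acl (gen_mem (τ := fun k : Fin 2 => (x ∘ p) k.succ) k)
    have hιΩ : ∀ (k : Fin 2) z, ι k.succ z ∈ Ω := by
      intro k z
      refine (acl_le ?_ : acl (ad K₀ {x (p k.succ)}) ≤ Ω) (hιK _ z)
      refine ad_le hKΩ ?_
      intro y hy
      rw [Set.mem_singleton_iff.1 hy]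
      exact hxΩ k
    let y : Fin 3 → S := ![x (p 1) * al 2 - al 1 * x (p 2), al 1 - al 2, x (p 2) - x (p 1)]
    have h2 := ld_fun (ι 0) (hι1 0) hTC (Ω := Ω) (fun z hz => acl_closed hz) hKΩ (by
      rw [hι2]
      exact h1) (u := fun k => u (p k)) (fun k => hu (p k)) (y := y) (by
        have e1 := hxΩ 0
        have e2 := hxΩ 1
        have e3 := hιΩ 0 ⟨u a, hu a⟩
        have e4 := hιΩ 1 ⟨u a, hu a⟩
        intro k
        fin_cases k
        · exact Ω.sub_mem (Ω.mul_mem e1 e4) (Ω.mul_mem e3 e2)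
        · exact Ω.sub_mem e3 e4
        · exact Ω.sub_mem e2 e1) (by
        rw [Fin.sum_univ_three]
        change y 0 * M 0 0 + y 1 * M 0 1 + y 2 * M 0 2 = 0
        rw [hM0, hM1, hM2]
        change (x (p 1) * al 2 - al 1 * x (p 2)) * 1 + (al 1 - al 2) * x (p 0) +
          (x (p 2) - x (p 1)) * al 0 = 0
        linear_combination h0) la
    rw [Fin.sum_univ_three] at h2
    have e1 : la (u (p 0)) = 0 := hla' _ (by
      rw [hup]
      exact Submodule.subset_span (by simp))
    have e2 : la (u (p 1)) = 0 := hla' _ (by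
      rw [hup]
      exact Submodule.subset_span (by simp))
    rw [e1, e2] at h2
    have h3 : (x (p 2) - x (p 1)) * φ (la (u a)) = 0 := by
      have h4 : φ ((0 : acl A) : C) = 0 := map_zero φ
      rw [h4, mul_zero, mul_zero, zero_add, zero_add] at h2
      exact h2
    rcases mul_eq_zero.1 h3 with h4 | h4
    · exact absurd (hpinj (sub_eq_zero.1 h4)) (by decide)
    · exact hla (Subtype.ext (φ.injective (h4.trans (map_zero φ).symm)))
  -- the solution
  let rhs : Fin 3 → S := fun i => -∑ f ∈ (Finset.univ.image p)ᶜ, x f * ι i ⟨u f, hu f⟩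
  let z : Fin 3 → S := M⁻¹.mulVec rhs
  have hz : M.mulVec z = rhs := by
    change M.mulVec (M⁻¹.mulVec rhs) = rhs
    rw [Matrix.mulVec_mulVec, Matrix.mul_nonsing_inv _ (isUnit_iff_ne_zero.2 hdet), Matrix.one_mulVec]
  let y : Fin (m + 2) → S := fun f => if h : ∃ k, p k = f then z h.choose else x f
  have hyp : ∀ k, y (p k) = z k := by
    intro k
    have h1 : ∃ k', p k' = p k := ⟨k, rfl⟩
    change (if h : ∃ k', p k' = p k then z h.choose else x (p k)) = z k
    rw [dif_pos h1, hp h1.choose_spec]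
  have hyx : ∀ f, (¬ ∃ k, p k = f) → y f = x f := fun f hf => dif_neg hf
  have hrel : ∀ i, ∑ f, y f * ι i ⟨u f, hu f⟩ = 0 := by
    intro i
    rw [← Finset.sum_add_sum_compl (Finset.univ.image p), Finset.sum_image fun k _ k' _ h => hp h]
    have h1 : ∑ k, y (p k) * ι i ⟨u (p k), hu (p k)⟩ = M.mulVec z i := by
      rw [Matrix.mulVec, dotProduct]
      refine Finset.sum_congr rfl fun k _ => ?_
      rw [hyp, mul_comm]
    have h2 : ∑ f ∈ (Finset.univ.image p)ᶜ, y f * ι i ⟨u f, hu f⟩ =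
        ∑ f ∈ (Finset.univ.image p)ᶜ, x f * ι i ⟨u f, hu f⟩ := by
      refine Finset.sum_congr rfl fun f hf => ?_
      rw [hyx f]
      rintro ⟨k, hk⟩
      rw [Finset.mem_compl] at hf
      exact hf (Finset.mem_image.2 ⟨k, Finset.mem_univ _, hk⟩)
    rw [h1, h2, hz]
    exact neg_add_cancel _
  -- algebraicity
  have hty : ∀ i, x (p i) ∈ acl (gn K₀ y) := by
    intro i
    by_contra hcon
    have h1 : Transcendental (acl (gn K₀ y)) (x (p i)) := fun h0 => hcon (acl_closed h0)
    have h2 := ld_fun (ι i) (hι1 i) hTC (Ω := acl (gn K₀ y)) (fun z hz => acl_closed hz)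
      (le_gn.trans le_acl) (by rw [hι2]; exact h1) (u := u) hu (y := y) (fun f => le_acl (mem_gn f)) (hrel i) lb
    refine lin_ne hx (r := fun f => φ (lb (u f))) (fun f => ?_) (i₀ := b) ?_ ?_
    · exact mem_acl.1 (kap_le ⟨_, (lb (u f)).2, rfl⟩)
    · intro h0
      exact hlb (Subtype.ext (φ.injective (h0.trans (map_zero φ).symm)))
    · rw [← h2]
      refine Finset.sum_congr rfl fun f _ => ?_
      by_cases hf : ∃ k, p k = f
      · obtain ⟨k, rfl⟩ := hf
        have h3 : lb (u (p k)) = 0 := hlb' _ (by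
          rw [hup]
          fin_cases k
          · exact Submodule.subset_span (by simp)
          · exact Submodule.subset_span (by simp)
          · exact Submodule.subset_span (by simp))
        have h4 : φ ((lb (u (p k)) : acl A) : C) = 0 := by
          rw [h3]
          exact map_zero φ
        rw [h4, zero_mul, mul_zero]
      · rw [hyx f hf, mul_comm]
  have hy : AlgebraicIndependent K₀ y := by
    refine indep_of_acl hx0 fun f => ?_
    by_cases hf : ∃ k, p k = f
    · obtain ⟨k, rfl⟩ := hf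
      exact hty k
    · rw [← hyx f hf]
      exact le_acl (mem_gn f)
  -- the embedding
  let jS : acl A →+* S := φ.comp (acl A).subtype
  have hjS : jS.fieldRange = K₀ := range_phi φ (acl A)
  obtain ⟨θ, hθ1, hθ2⟩ := exists_gen jS jS (w := y) (w' := x) (by rw [hjS]; exact hy) (by rw [hjS]; exact hx0)
  have hKj : K₀ ≤ jS.fieldRange := hjS.ge
  have hιM : ∀ i z, ι i z ∈ acl (gn jS.fieldRange y) := by
    intro i z
    refine (acl_le ?_ : acl (ad K₀ {x (p i)}) ≤ _) (hιK i z)
    refine ad_le ((hKj.trans le_gn).trans le_acl) ?_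
    intro w hw
    rw [Set.mem_singleton_iff.1 hw, hjS]
    exact hty i
  let κ : Fin 3 → (acl (ad A {T}) →+* S) := fun i =>
    θ.comp ((ι i).codRestrict (acl (gn jS.fieldRange y)).toSubring (hιM i))
  have hκ : ∀ i z, κ i z = θ ⟨ι i z, hιM i z⟩ := fun _ _ => rfl
  refine ⟨κ, fun i => ⟨fun z hz => ?_, fun hu' => ?_⟩, ?_⟩
  · rw [hκ]
    have h1 : (⟨ι i z, hιM i z⟩ : acl (gn jS.fieldRange y)) = ⟨jS ⟨z, hz⟩, by
        have h2 := hιM i z
        rw [hι1 i z hz] at h2
        exact h2⟩ := Subtype.ext (hι1 i z hz)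
    rw [h1]
    exact hθ1 ⟨z, hz⟩ _
  · have h1 : ∑ f, x f * κ i ⟨u f, hu' f⟩ = θ (∑ f, (⟨y f, le_acl (mem_gn f)⟩ : acl (gn jS.fieldRange y)) *
        ⟨ι i ⟨u f, hu f⟩, hιM i _⟩) := by
      rw [map_sum]
      refine Finset.sum_congr rfl fun f _ => ?_
      rw [map_mul, hθ2]
      rfl
    rw [h1]
    have h2 : ∑ f, (⟨y f, le_acl (mem_gn f)⟩ : acl (gn jS.fieldRange y)) *
        ⟨ι i ⟨u f, hu f⟩, hιM i _⟩ = 0 := by
      apply (acl (gn jS.fieldRange y)).subtype.injective
      rw [map_sum, map_zero]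
      exact hrel i
    rw [h2, map_zero]
  · intro hT' i i' hii
    have hAN : A.map φ ≤ acl (gn jS.fieldRange y) := le_kap.trans ((hKj.trans le_gn).trans le_acl)
    let _ : Algebra (A.map φ) (acl (gn jS.fieldRange y)) := (Subfield.inclusion hAN).toAlgebra
    have hst : IsScalarTower (A.map φ) (acl (gn jS.fieldRange y)) S := IsScalarTower.of_algebraMap_eq fun _ => rfl
    let θ' : acl (gn jS.fieldRange y) →ₐ[A.map φ] S :=
      { θ with
        commutes' := by
          rintro ⟨_, w, hw, rfl⟩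
          exact hθ1 ⟨w, le_acl hw⟩ _ }
    let v : Fin 2 → acl (gn jS.fieldRange y) := ![⟨x (p i), by rw [← hι2 i hTC]; exact hιM i _⟩, ⟨x (p i'), by
      rw [← hι2 i' hTC]; exact hιM i' _⟩]
    have h1 : AlgebraicIndependent (A.map φ) (Subtype.val ∘ v : Fin 2 → S) := by
      have h2 : (Subtype.val ∘ v : Fin 2 → S) = x ∘ ![p i, p i'] := by
        funext k
        fin_cases k <;> rfl
      rw [h2]
      refine hx.comp _ ?_
      intro k k' hkk
      have hne : p i ≠ p i' := fun h0 => hii (hp h0)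
      revert hkk
      fin_cases k <;> fin_cases k' <;> simp [hne, hne.symm]
    have h2 : AlgebraicIndependent (A.map φ) v := AlgebraicIndependent.of_comp (IsScalarTower.toAlgHom (A.map φ) (acl (gn jS.fieldRange y)) S) h1
    have h3 := h2.map' (f := θ') θ.injective
    convert h3 using 1
    funext k
    fin_cases k
    · change κ i ⟨T, hT'⟩ = θ ⟨x (p i), _⟩
      exact congrArg θ (Subtype.ext (hι2 i hT'))
    · change κ i' ⟨T, hT'⟩ = θ ⟨x (p i'), _⟩
      exact congrArg θ (Subtype.ext (hι2 i' hT'))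

end Pool.Agent.FFX
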