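import Pool.Agent.Helper10.FF.Defs4
import Pool.Agent.Helper13.FF.Lin
import Pool.Agent.Helper40.FF.BE

/-!
# Project FF, block TH1, part a: embeddings, transcendence degree, linear independence
-/

set_option autoImplicit false
set_option linter.unusedSectionVars false

namespace Pool.Agent.FFX

open Polynomial Pool.Agent.LT Pool.Agent.Helper37.UL UL Pool.Agent.OPN Pool.Agent.OPG _root_.TW Pool.Agent.TWT
open Pool.Agent.FF40 (exists_ext)

/-- extension of embeddings to algebraic closures -/
theorem exists_lift_acl {X S : Type} [Field X] [Field S] [IsAlgClosed S] (K : Subfield X) (ψ : K →+* S) :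
    ∃ θ : acl K →+* S, ∀ (z : X) (hz : z ∈ K), θ ⟨z, le_acl hz⟩ = ψ ⟨z, hz⟩ := by
  let _ : Algebra K S := ψ.toAlgebra
  let θ : algebraicClosure K X →ₐ[K] S := IsAlgClosed.lift
  exact ⟨θ.toRingHom, fun z hz => θ.commutes ⟨z, hz⟩⟩

/-- the embeddings of the algebraic closure of a purely transcendental extension -/
theorem exists_gen {X S F : Type} [Field X] [Field S] [IsAlgClosed S] [Field F] (j : F →+* X)
    (j' : F →+* S) {n : ℕ} {w : Fin n → X} {w' : Fin n → S} (hw : AlgebraicIndependent j.fieldRange w)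
    (hw' : AlgebraicIndependent j'.fieldRange w') :
    ∃ θ : acl (gn j.fieldRange w) →+* S,
      (∀ (z : F) (h : j z ∈ acl (gn j.fieldRange w)), θ ⟨j z, h⟩ = j' z) ∧
      ∀ i (h : w i ∈ acl (gn j.fieldRange w)), θ ⟨w i, h⟩ = w' i := by
  obtain ⟨J, hJC, hJX, hJL⟩ := exists_ext j hw
  obtain ⟨J', hJC', hJX', -⟩ := exists_ext j' hw'
  let e : FractionRing (MvPolynomial (Fin n) F) ≃+* J.fieldRange :=
    RingEquiv.ofBijective J.rangeRestrictField
      ⟨J.rangeRestrictField.injective, fun ⟨_, y, hy⟩ => ⟨y, Subtype.ext hy⟩⟩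
  have he : ∀ y (h : J y ∈ J.fieldRange), e.symm ⟨J y, h⟩ = y := by
    intro y h
    rw [RingEquiv.symm_apply_eq]
    rfl
  have hle : gn j.fieldRange w ≤ J.fieldRange := gn_le (by
    rintro _ ⟨z, rfl⟩
    exact ⟨_, hJC z⟩) fun i => ⟨_, hJX i⟩
  let ψ : gn j.fieldRange w →+* S := (J'.comp e.symm.toRingHom).comp (Subfield.inclusion hle)
  have hψ : ∀ y (h : J y ∈ gn j.fieldRange w), ψ ⟨J y, h⟩ = J' y := by
    intro y h
    exact congrArg J' (he y _)
  obtain ⟨θ, hθ⟩ := exists_lift_acl _ ψ
  refine ⟨θ, fun z hz => ?_, fun i hi => ?_⟩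
  · have h1 : j z ∈ gn j.fieldRange w := le_gn ⟨z, rfl⟩
    rw [hθ (j z) h1, ← hJC' z]
    have h2 := hψ (algebraMap (MvPolynomial (Fin n) F) _ (MvPolynomial.C z)) (by rw [hJC]; exact h1)
    rw [← h2]
    congr 1
    exact Subtype.ext (hJC z).symm
  · have h1 : w i ∈ gn j.fieldRange w := mem_gn i
    rw [hθ (w i) h1, ← hJX' i]
    have h2 := hψ (algebraMap (MvPolynomial (Fin n) F) _ (MvPolynomial.X i)) (by rw [hJX]; exact h1)
    rw [← h2]
    congr 1
    exact Subtype.ext (hJX i).symm

/-- `n` elements over which `n` independent elements are algebraic are independent -/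
theorem indep_of_acl {S : Type} [Field S] {K : Subfield S} {n : ℕ} {x y : Fin n → S}
    (hx : AlgebraicIndependent K x) (hxy : ∀ i, x i ∈ acl (gn K y)) : AlgebraicIndependent K y := by
  set M : Subfield S := acl (gn K y) with hM
  have hKM : K ≤ M := le_gn.trans le_acl
  let _ : Algebra K M := (Subfield.inclusion hKM).toAlgebra
  have hst : IsScalarTower K M S := IsScalarTower.of_algebraMap_eq fun _ => rfl
  let y' : Fin n → M := fun i => ⟨y i, le_acl (mem_gn i)⟩
  let x' : Fin n → M := fun i => ⟨x i, hxy i⟩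
  have hx' : AlgebraicIndependent K x' := hx.of_comp (IsScalarTower.toAlgHom K M S)
  have hle : (gn K y).comap M.subtype ≤ (IntermediateField.adjoin K (Set.range y')).toSubfield := by
    have h1 : gn K y ≤ (IntermediateField.adjoin K (Set.range y')).toSubfield.map M.subtype := by
      refine gn_le ?_ ?_
      · intro z hz
        exact ⟨algebraMap K M ⟨z, hz⟩, (IntermediateField.adjoin K _).algebraMap_mem _, rfl⟩
      · intro i
        exact ⟨y' i, IntermediateField.subset_adjoin K _ ⟨i, rfl⟩, rfl⟩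
    intro z hz
    obtain ⟨w, hw, hwz⟩ := h1 hz
    have h2 : w = z := Subtype.ext hwz
    rw [← h2]
    exact hw
  have halg : Algebra.IsAlgebraic (Algebra.adjoin K (Set.range y')) M := by
    rw [← IntermediateField.isAlgebraic_adjoin_iff_top]
    exact ⟨fun z => isAlgebraic_mono hle (alg_comap le_acl (mem_acl.1 z.2))⟩
  have h1 : (n : Cardinal) ≤ Algebra.trdeg K M := by
    have h2 := hx'.cardinalMk_le_trdeg
    rwa [Cardinal.mk_fin] at h2
  have h3 : IsTranscendenceBasis K y' :=
    Algebra.IsAlgebraic.isTranscendenceBasis_of_le_trdeg_of_finite K y' (by rw [Cardinal.mk_fin]; exact h1)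
  exact h3.1.map' (f := IsScalarTower.toAlgHom K M S) Subtype.val_injective

end Pool.Agent.FFX
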