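import Pool.Agent.Helper10.FF.TH1a

/-!
# Project FF, block TH1, part b: linear disjointness
-/

set_option autoImplicit false
set_option linter.unusedSectionVars false

namespace Pool.Agent.FFX

open Polynomial Pool.Agent.LT Pool.Agent.Helper37.UL UL Pool.Agent.OPN Pool.Agent.OPG _root_.TW Pool.Agent.TWT
open Pool.Agent.FF40 (iota_alg kap_le kap_indep le_kap)

variable {C S : Type} [Field C] [Field S] [CharZero C] [IsAlgClosed C] [IsAlgClosed S] {φ : C →+* S}
    {A : Subfield C} {T : C}

/-- independent elements stay independent over every algebraically closed field over which `T` is transcendental -/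
theorem ld_ind (ι : acl (ad A {T}) →+* S) (hι : ∀ z : acl (ad A {T}), (z : C) ∈ acl A → ι z = φ z)
    (hT : T ∈ acl (ad A {T})) {Ω : Subfield S} (hΩ : ∀ z : S, IsAlgebraic Ω z → z ∈ Ω)
    (hφ : (acl A).map φ ≤ Ω) (ht : Transcendental Ω (ι ⟨T, hT⟩)) {I : Type} [Fintype I]
    {b : I → acl (ad A {T})} (hb : LinearIndependent (acl A) fun i => (b i : C)) :
    LinearIndependent Ω fun i => ι (b i) := by
  classical
  have hS0 : CharZero S := charZero_of_injective_ringHom φ.injective
  have hcl : ∀ z : S, IsAlgebraic ((acl A).map φ) z → z ∈ (acl A).map φ := fun z hz =>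
    PL.map_closed (fun x hx => acl_closed hx) φ hz
  refine linInd_big (F₀ := (acl A).map φ) (fun c => hφ c.2) hΩ ht (fun i => ?_) ?_
  · exact alg_adjoin_iff.2 (mem_acl.1 (iota_alg ι hι hT (b i)))
  · rw [Fintype.linearIndependent_iff]
    intro g hg i
    have h1 : ∀ i, ∃ c : acl A, φ c = g i := by
      intro i
      obtain ⟨c, hc, hcg⟩ := hcl (g i : S) (mem_algebraicClosure_iff.1 (g i).2)
      exact ⟨⟨c, hc⟩, hcg⟩
    choose c hc using h1
    have hle : acl A ≤ acl (ad A {T}) := acl_mono le_ad
    have h2 : ι (∑ i, (⟨(c i : C), hle (c i).2⟩ : acl (ad A {T})) * b i) = 0 := by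
      rw [map_sum, ← hg]
      refine Finset.sum_congr rfl fun i _ => ?_
      rw [map_mul, hι _ (c i).2, Algebra.smul_def]
      change φ (c i) * _ = (g i : S) * _
      rw [hc]
    have h3 : ∑ i, (⟨(c i : C), hle (c i).2⟩ : acl (ad A {T})) * b i = 0 :=
      ι.injective (h2.trans (map_zero ι).symm)
    have h4 : ∑ i, c i • (b i : C) = 0 := by
      have h5 := congrArg (acl (ad A {T})).subtype h3
      rw [map_sum, map_zero] at h5
      rw [← h5]
      refine Finset.sum_congr rfl fun i _ => ?_
      rw [Algebra.smul_def]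
      rfl
    have h6 := (Fintype.linearIndependent_iff.1 hb) c h4 i
    apply Subtype.ext
    rw [← hc, h6]
    exact map_zero φ

/-- relations over a large field come from relations over `acl A` -/
theorem ld_fun (ι : acl (ad A {T}) →+* S) (hι : ∀ z : acl (ad A {T}), (z : C) ∈ acl A → ι z = φ z)
    (hT : T ∈ acl (ad A {T})) {Ω : Subfield S} (hΩ : ∀ z : S, IsAlgebraic Ω z → z ∈ Ω)
    (hφ : (acl A).map φ ≤ Ω) (ht : Transcendental Ω (ι ⟨T, hT⟩)) {I : Type} [Fintype I]
    {u : I → C} (hu : ∀ i, u i ∈ acl (ad A {T})) {y : I → S} (hy : ∀ i, y i ∈ Ω)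
    (hyu : ∑ i, y i * ι ⟨u i, hu i⟩ = 0) (l : Module.Dual (acl A) C) : ∑ i, y i * φ (l (u i)) = 0 := by
  classical
  have hfin : FiniteDimensional (acl A) (Submodule.span (acl A) (Set.range u)) :=
    FiniteDimensional.span_of_finite _ (Set.finite_range u)
  let b := Module.finBasis (acl A) (Submodule.span (acl A) (Set.range u))
  let u' : I → Submodule.span (acl A) (Set.range u) := fun i => ⟨u i, Submodule.subset_span ⟨i, rfl⟩⟩
  have hle : acl A ≤ acl (ad A {T}) := acl_mono le_ad
  have hbm : ∀ g, (b g : C) ∈ acl (ad A {T}) := by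
    intro g
    have h1 : ∀ z ∈ Submodule.span (acl A) (Set.range u), z ∈ acl (ad A {T}) := by
      intro z hz
      induction hz using Submodule.span_induction with
      | mem z hz =>
        obtain ⟨i, rfl⟩ := hz
        exact hu i
      | zero => exact Subfield.zero_mem _
      | add x y _ _ hx hy => exact Subfield.add_mem _ hx hy
      | smul c y _ hy =>
        rw [Algebra.smul_def]
        exact Subfield.mul_mem _ (hle c.2) hy
    exact h1 _ (b g).2
  have hbi : LinearIndependent (acl A) fun g => ((⟨(b g : C), hbm g⟩ : acl (ad A {T})) : C) :=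
    b.linearIndependent.map' (Submodule.subtype _) (Submodule.ker_subtype _)
  have h1 := ld_ind ι hι hT hΩ hφ ht hbi
  have hexp : ∀ i, u i = ∑ g, (b.repr (u' i) g : C) * (b g : C) := by
    intro i
    have h2 := congrArg (Submodule.subtype _) (b.sum_repr (u' i))
    rw [map_sum] at h2
    refine h2.symm.trans (Finset.sum_congr rfl fun g _ => ?_)
    rw [map_smul, Algebra.smul_def]
    rfl
  have hexp' : ∀ i, ι ⟨u i, hu i⟩ = ∑ g, φ (b.repr (u' i) g) * ι ⟨(b g : C), hbm g⟩ := by
    intro i
    have h2 : (⟨u i, hu i⟩ : acl (ad A {T})) =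
        ∑ g, (⟨(b.repr (u' i) g : C), hle (b.repr (u' i) g).2⟩ : acl (ad A {T})) * ⟨(b g : C), hbm g⟩ := by
      apply (acl (ad A {T})).subtype.injective
      rw [map_sum]
      exact hexp i
    rw [h2, map_sum]
    refine Finset.sum_congr rfl fun g _ => ?_
    rw [map_mul, hι _ (b.repr (u' i) g).2]
  have h3 : ∀ g, ∑ i, y i * φ (b.repr (u' i) g) = 0 := by
    have h4 : ∑ g, (∑ i, y i * φ (b.repr (u' i) g)) * ι ⟨(b g : C), hbm g⟩ = 0 := by
      rw [← hyu]
      simp only [hexp', Finset.sum_mul, Finset.mul_sum]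
      rw [Finset.sum_comm]
      refine Finset.sum_congr rfl fun i _ => Finset.sum_congr rfl fun g _ => by ring
    have hm : ∀ g, ∑ i, y i * φ (b.repr (u' i) g) ∈ Ω := fun g =>
      Ω.sum_mem fun i _ => Ω.mul_mem (hy i) (hφ ⟨_, (b.repr (u' i) g).2, rfl⟩)
    intro g
    have h5 := (Fintype.linearIndependent_iff.1 h1) (fun g => ⟨_, hm g⟩) (by
      rw [← h4]
      refine Finset.sum_congr rfl fun g _ => ?_
      rw [Algebra.smul_def]
      rfl) g
    exact congrArg Subtype.val h5
  have h6 : ∀ i, l (u i) = ∑ g, b.repr (u' i) g * l (b g) := by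
    intro i
    conv_lhs => rw [show u i = ∑ g, b.repr (u' i) g • (b g : C) from by
      rw [hexp i]
      refine Finset.sum_congr rfl fun g _ => ?_
      rw [Algebra.smul_def]
      rfl]
    rw [map_sum]
    refine Finset.sum_congr rfl fun g _ => ?_
    rw [map_smul, smul_eq_mul]
  have h7 : ∑ i, y i * φ (l (u i)) = ∑ g, (∑ i, y i * φ (b.repr (u' i) g)) * φ (l (b g)) := by
    simp only [Finset.sum_mul]
    rw [Finset.sum_comm]
    refine Finset.sum_congr rfl fun i _ => ?_
    rw [h6]
    change y i * φ (((∑ g, b.repr (u' i) g * l (b g) : acl A)) : C) = _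
    have h8 : ((∑ g, b.repr (u' i) g * l (b g) : acl A) : C) =
        ∑ g, (b.repr (u' i) g : C) * (l (b g) : C) := by
      rw [← Subfield.coe_subtype, map_sum]
      rfl
    rw [h8, map_sum, Finset.mul_sum]
    refine Finset.sum_congr rfl fun g _ => ?_
    rw [map_mul]
    ring
  rw [h7]
  refine Finset.sum_eq_zero fun g _ => ?_
  rw [h3 g, zero_mul]

end Pool.Agent.FFX
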