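import Pool.Agent.Helper10.FF.TH1
import Pool.Agent.Helper10.FF.Conv

/-!
# Project FF, block THR: three pairwise independent zeros
-/

set_option autoImplicit false
set_option linter.unusedSectionVars false

namespace Pool.Agent.FFX

open Polynomial Pool.Agent.LT Pool.Agent.Helper37.UL UL Pool.Agent.OPN Pool.Agent.OPG _root_.TW Pool.Agent.TWT

/-- **Block THR**, from TH2. -/
theorem thr (h2 : StmtTH2) : StmtTHR := by
  intro E C _ _ _ _ _ _ A T q m J U S _ π h a Fv u hs e he
  classical
  have hC0 := hs.charC
  have hSa : IsAlgClosed S := h.isAlgClosed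
  have hlin : LinearIndependent (acl A) (fun i => u (e i)) := by
    rw [Fintype.linearIndependent_iff]
    intro g hg i
    have h1 : ∀ i, ∃ c : E, algebraMap E C c = g i := fun i => acl_range hs.hA (g i).2
    choose c hc using h1
    have h3 : ∑ i, c i • u (e i) = 0 := by
      rw [← hg]
      refine Finset.sum_congr rfl fun i _ => ?_
      rw [Algebra.smul_def, Algebra.smul_def, hc]
      rfl
    have h4 := (Fintype.linearIndependent_iff.1 he) c h3 i
    apply Subtype.ext
    rw [← hc, h4]
    exact map_zero _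
  obtain ⟨ι', hι', hind⟩ := th1 (UP.cst π) hs.sd.tr hs.hu' hs.hu0 hs.hu1 hs.hx e hlin
  choose W lam ι hZ hι using fun i => h2 h hs (ι' i) (hι' i)
  refine ⟨W, lam, ι, hZ, fun hT i i' hii => ?_⟩
  rw [hι i hT, hι i' hT]
  exact hind hT i i' hii

end Pool.Agent.FFX
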